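import Pool.Agent.TH931.LA.NearFin

set_option autoImplicit false

open Pool.Agent.TH762.AC Pool.Agent.TH931.LA

/-- `ACC^0 = TC^0` if and only if, for some modulus `m`, polynomial size constant depth circuits
with `MOD_m` gates agree with majority on all but `(log n + 1) ^ e * binom(n, n / 2)` of the `2 ^ n`
inputs, that is on all but a fraction of about `(log n) ^ e / sqrt n` of them.  The same holds for
every further gate `G` in place of `MOD_m`. -/
theorem Pool.Agent.TH931.LA.almost_all_inputs :
    (∀ e : ℕ, ACC0 = TC0 ↔ ∃ m, 2 ≤ m ∧ NearMajority (fun _ k => k % m ≠ 0) e) ∧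
    ∀ (G : ℕ → ℕ → Prop) (e : ℕ), TC0 ⊆ {L | Decides G L} ↔ NearMajority G e :=
  ⟨acc0_eq_iff_near, tc0_sub_iff_near⟩
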