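import Pool.Agent.TH931.LA.Perm

set_option autoImplicit false

/-!
Amplification: one round of AND and OR of independent copies multiplies a small difference of the
two probabilities by the logarithm of `n`, up to a constant; a constant difference is turned into
an exact separation.
-/

namespace Pool.Agent.TH931.LA

open Pool.Agent.TH762.AC

variable {G : ℕ → ℕ → Prop} {n S D : ℕ} {A B : (Fin n → Bool) → Prop} {p q : ℝ}

theorem exp_le_one_sub {u : ℝ} (h0 : 0 ≤ u) (h1 : u ≤ 1 / 2) : Real.exp (-(2 * u)) ≤ 1 - u := by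
  have h2 : 2 * u + 1 ≤ Real.exp (2 * u) := Real.add_one_le_exp _
  rw [Real.exp_neg, inv_le_comm₀ (Real.exp_pos _) (by linarith)]
  refine le_trans ?_ h2
  rw [inv_le_iff_one_le_mul₀ (by linarith)]
  nlinarith

theorem exp_le_half {y : ℝ} (h0 : 0 ≤ y) (h1 : y ≤ 1) : Real.exp (-y) ≤ 1 - y / 2 := by
  have h2 : y + 1 ≤ Real.exp y := Real.add_one_le_exp _
  rw [Real.exp_neg, inv_le_comm₀ (Real.exp_pos _) (by linarith)]
  refine le_trans ?_ h2
  rw [inv_le_iff_one_le_mul₀ (by linarith)]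
  nlinarith

theorem exp_three : (1 : ℝ) / 21 ≤ Real.exp (-3) := by
  rw [Real.exp_neg, one_div, inv_le_inv₀ (by norm_num) (Real.exp_pos _)]
  have h1 : Real.exp 3 = Real.exp 1 ^ 3 := by
    rw [← Real.exp_nat_mul]; norm_num
  rw [h1]
  have h2 := Real.exp_one_lt_d9
  have h3 : Real.exp 1 ≤ 2.72 := by linarith
  have h4 : (0 : ℝ) ≤ Real.exp 1 := (Real.exp_pos 1).le
  calc Real.exp 1 ^ 3 ≤ (2.72 : ℝ) ^ 3 := pow_le_pow_left₀ h4 h3 3
    _ ≤ 21 := by norm_num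

theorem exp_neg_one_le : Real.exp (-1) ≤ 1 / 2 := by
  have h := exp_le_half (y := 1) (by norm_num) le_rfl
  linarith

/-- The ratio of the probabilities after the AND of `k` copies. -/
theorem ratio_bound {δ : ℝ} (k : ℕ) (hp : 0 ≤ p) (hq : q ≤ 1) (hδ : 0 ≤ δ) (hgap : δ ≤ q - p) :
    p ^ k ≤ q ^ k * Real.exp (-(k * δ)) := by
  have h1 : p ≤ q * (1 - δ) := by nlinarith
  have h2 : (1 - δ) ≤ Real.exp (-δ) := Real.one_sub_le_exp_neg δ
  have h3 : p ≤ q * Real.exp (-δ) := h1.trans (mul_le_mul_of_nonneg_left h2 (by linarith))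
  have h4 := pow_le_pow_left₀ hp h3 k
  rw [mul_pow, ← Real.exp_nat_mul] at h4
  refine h4.trans (le_of_eq ?_)
  congr 2
  ring

theorem RC.step (h : RC G n S D A B p q) {ε : ℝ} {k : ℕ} (hp : 1 / 4 ≤ p) (hq : q ≤ 3 / 4)
    (hε : 0 < ε) (hgap : ε ≤ q - p) (hk : 3 ≤ k) (hkε : k * ε ≤ 1) :
    ∃ p' q', RC G n (2 + 4 ^ k * (2 + k * S)) (D + 4) A B p' q' ∧ 1 / 4 ≤ p' ∧ q' ≤ 3 / 4 ∧
      k * ε / 100 ≤ q' - p' := by
  have hq0 : 1 / 4 ≤ q := by linarith
  set u := q ^ k with hu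
  set v := p ^ k with hv
  have hu0 : 0 < u := pow_pos (by linarith) k
  have hv0 : 0 ≤ v := pow_nonneg (by linarith) k
  have hu1 : u ≤ 1 / 2 := by
    have h1 : u ≤ (3 / 4) ^ k := pow_le_pow_left₀ (by linarith) hq k
    have h2 : ((3 : ℝ) / 4) ^ k ≤ (3 / 4) ^ 3 := pow_le_pow_of_le_one (by norm_num) (by norm_num) hk
    have h3 : ((3 : ℝ) / 4) ^ 3 ≤ 1 / 2 := by norm_num
    linarith
  have hkε0 : 0 ≤ (k : ℝ) * ε := by positivity
  have hvu : v ≤ u * (1 - k * ε / 2) := by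
    refine (ratio_bound k (by linarith) (by linarith) hε.le hgap).trans ?_
    exact mul_le_mul_of_nonneg_left (exp_le_half hkε0 hkε) hu0.le
  have hvle : v ≤ u := hvu.trans (by nlinarith)
  set M := ⌈1 / u⌉₊ with hM
  have hM1 : 1 / u ≤ M := Nat.le_ceil _
  have hM2 : (M : ℝ) < 1 / u + 1 := Nat.ceil_lt_add_one (by positivity)
  have hMu : 1 ≤ M * u := by rwa [div_le_iff₀ hu0] at hM1
  have hMu2 : M * u ≤ 3 / 2 := by
    have h1 := mul_lt_mul_of_pos_right hM2 hu0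
    have h2 : (1 / u + 1) * u = 1 + u := by field_simp
    linarith
  have hM3 : M ≤ 4 ^ k := by
    apply Nat.ceil_le.2
    push_cast
    rw [div_le_iff₀ hu0]
    have h1 : (1 / 4 : ℝ) ^ k ≤ u := pow_le_pow_left₀ (by norm_num) hq0 k
    have h2 : (4 : ℝ) ^ k * (1 / 4) ^ k = 1 := by
      rw [← mul_pow]; norm_num
    have h3 : (0 : ℝ) < 4 ^ k := by positivity
    nlinarith
  have h1 := h.and (by linarith) k
  have h2 := h1.or (by linarith) M
  have h3 := h2.mix (by omega) (by omega)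
  have hpw0 : 0 ≤ (1 - v) ^ M := pow_nonneg (by linarith) M
  have hpw1 : (1 - v) ^ M ≤ 1 := pow_le_one₀ (by linarith) (by linarith)
  have hqw0 : 0 ≤ (1 - u) ^ M := pow_nonneg (by linarith) M
  refine ⟨_, _, h3.mono ?_ (by omega) le_rfl le_rfl, ?_, ?_, ?_⟩
  · have e1 : 1 + (1 + k * S) = 2 + k * S := by ring
    rw [e1]
    have := Nat.mul_le_mul_right (2 + k * S) hM3
    omega
  · linarith
  · linarith
  · have e1 : (1 - u) * (1 + (u - v)) ≤ 1 - v := by nlinarith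
    have e2 : ((1 - u) * (1 + (u - v))) ^ M ≤ (1 - v) ^ M :=
      pow_le_pow_left₀ (mul_nonneg (by linarith) (by linarith)) e1 M
    have e3 : 1 + (M : ℝ) * (u - v) ≤ (1 + (u - v)) ^ M := one_add_mul_le_pow (by linarith) M
    have e4 : 1 / 21 ≤ (1 - u) ^ M := by
      have f1 := pow_le_pow_left₀ (Real.exp_pos _).le (exp_le_one_sub hu0.le hu1) M
      rw [← Real.exp_nat_mul] at f1
      refine exp_three.trans ((Real.exp_le_exp.2 ?_).trans f1)
      nlinarith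
    rw [mul_pow] at e2
    have e5 : (1 - u) ^ M * (1 + M * (u - v)) ≤ (1 - v) ^ M :=
      (mul_le_mul_of_nonneg_left e3 hqw0).trans e2
    have e6 : k * ε / 2 ≤ M * (u - v) := by
      have f1 : u * (k * ε / 2) ≤ u - v := by linarith
      have f2 := mul_le_mul_of_nonneg_left f1 (Nat.cast_nonneg M : (0 : ℝ) ≤ M)
      have f3 : (1 : ℝ) * (k * ε / 2) ≤ (M * u) * (k * ε / 2) :=
        mul_le_mul_of_nonneg_right hMu (by positivity)
      linarith
    have e7 : 1 / 21 * (k * ε / 2) ≤ (1 - u) ^ M * (M * (u - v)) :=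
      mul_le_mul e4 e6 (by positivity) hqw0
    nlinarith

theorem RC.finish (h : RC G n S D A B p q) {δ : ℝ} {K L : ℕ} (hp : 1 / 4 ≤ p) (hq : q ≤ 3 / 4)
    (hδ : 0 < δ) (hgap : δ ≤ q - p) (hK : 4 ≤ K * δ) (hL : 4 * (n + 1) ≤ 2 ^ L) :
    ∃ g, CC G n (1 + (n + 1) * (2 + ((4 * n + 4) * 4 ^ (K * L) + 1) * (2 + K * L * S))) (D + 5) g ∧
      (∀ x, A x → ¬ g x) ∧ ∀ x, B x → g x := by
  set k := K * L with hk
  have hq0 : 1 / 4 ≤ q := by linarith
  set u := q ^ k with hu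
  set v := p ^ k with hv
  have hu0 : 0 < u := pow_pos (by linarith) k
  have hv0 : 0 ≤ v := pow_nonneg (by linarith) k
  have hu1 : u ≤ 1 := pow_le_one₀ (by linarith) (by linarith)
  set r := Real.exp (-(k * δ)) with hr
  have hr0 : 0 < r := Real.exp_pos _
  have hvu : v ≤ u * r := ratio_bound k (by linarith) (by linarith) hδ.le hgap
  have hn0 : (0 : ℝ) ≤ n := Nat.cast_nonneg n
  have hr1 : r ≤ 1 / (256 * (n + 1)) := by
    have h1 : (4 * L : ℝ) ≤ k * δ := by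
      rw [hk]; push_cast
      have : (4 : ℝ) * L ≤ (K * δ) * L := mul_le_mul_of_nonneg_right hK (Nat.cast_nonneg L)
      linarith
    have h2 : r ≤ Real.exp (-1) ^ (4 * L) := by
      rw [← Real.exp_nat_mul]
      apply Real.exp_le_exp.2
      push_cast
      linarith
    have h3 : Real.exp (-1) ^ (4 * L) ≤ (1 / 2 : ℝ) ^ (4 * L) :=
      pow_le_pow_left₀ (Real.exp_pos _).le exp_neg_one_le _
    have h4 : (1 / 2 : ℝ) ^ (4 * L) = 1 / ((2 : ℝ) ^ L) ^ 4 := by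
      rw [mul_comm 4 L, pow_mul, one_div_pow, one_div_pow]
    have h5 : (4 * (n + 1) : ℝ) ≤ 2 ^ L := by exact_mod_cast hL
    have h6 : (4 * (n + 1) : ℝ) ^ 4 ≤ ((2 : ℝ) ^ L) ^ 4 := pow_le_pow_left₀ (by positivity) h5 4
    have h7 : (256 * (n + 1) : ℝ) ≤ (4 * (n + 1) : ℝ) ^ 4 := by
      have h8 : (1 : ℝ) ≤ (n + 1) ^ 3 := one_le_pow₀ (by linarith)
      have h9 : (4 * (n + 1) : ℝ) ^ 4 = 256 * (n + 1) * (n + 1) ^ 3 := by ring
      rw [h9]
      have : (0 : ℝ) ≤ 256 * (n + 1) := by positivity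
      nlinarith
    calc r ≤ (1 / 2 : ℝ) ^ (4 * L) := h2.trans h3
      _ = 1 / ((2 : ℝ) ^ L) ^ 4 := h4
      _ ≤ 1 / (256 * (n + 1)) := one_div_le_one_div_of_le (by positivity) (h7.trans h6)
  have hr2 : r ≤ 1 := by
    refine hr1.trans ?_
    rw [div_le_one (by positivity)]
    linarith
  have hv1 : v ≤ r := hvu.trans (by nlinarith)
  set M := ⌈(4 * n + 4) / u⌉₊ with hM
  have hM1 : (4 * n + 4) / u ≤ M := Nat.le_ceil _
  have hM2 : (M : ℝ) < (4 * n + 4) / u + 1 := Nat.ceil_lt_add_one (by positivity)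
  have hMu : (4 * n + 4 : ℝ) ≤ M * u := by rwa [div_le_iff₀ hu0] at hM1
  have hM3 : M ≤ (4 * n + 4) * 4 ^ k + 1 := by
    refine (Nat.ceil_le.2 ?_).trans (Nat.le_succ _)
    push_cast
    rw [div_le_iff₀ hu0]
    have h1 : (1 / 4 : ℝ) ^ k ≤ u := pow_le_pow_left₀ (by norm_num) hq0 k
    have h2 : (4 : ℝ) ^ k * (1 / 4) ^ k = 1 := by
      rw [← mul_pow]; norm_num
    have h3 : (0 : ℝ) < 4 ^ k := by positivity
    have h4 : 1 ≤ (4 : ℝ) ^ k * u := by nlinarith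
    have h5 : (0 : ℝ) ≤ 4 * n + 4 := by positivity
    nlinarith
  have h1 := h.and (by linarith) k
  have h2 := h1.or (by linarith) M
  have hqw : (1 - u) ^ M ≤ (1 / 2 : ℝ) ^ (4 * n + 4) := by
    have f1 : (1 - u) ^ M ≤ Real.exp (-u) ^ M :=
      pow_le_pow_left₀ (by linarith) (Real.one_sub_le_exp_neg u) M
    rw [← Real.exp_nat_mul] at f1
    have f2 : Real.exp (M * -u) ≤ Real.exp (-1) ^ (4 * n + 4) := by
      rw [← Real.exp_nat_mul]
      apply Real.exp_le_exp.2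
      push_cast
      linarith
    exact (f1.trans f2).trans (pow_le_pow_left₀ (Real.exp_pos _).le exp_neg_one_le _)
  have hqw0 : 0 ≤ (1 - u) ^ M := pow_nonneg (by linarith) M
  have hpw : 1 - (1 - v) ^ M ≤ 1 / 4 := by
    have f1 : 1 + (M : ℝ) * (-v) ≤ (1 + -v) ^ M := one_add_mul_le_pow (by linarith) M
    have f2 : (1 + -v) ^ M = (1 - v) ^ M := by rw [← sub_eq_add_neg]
    rw [f2] at f1
    have f3 : (M : ℝ) * v ≤ (4 * n + 5) * r := by
      have g1 : (M : ℝ) * v ≤ ((4 * n + 4) / u + 1) * v := mul_le_mul_of_nonneg_right hM2.le hv0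
      have g2 : (4 * n + 4) / u * v ≤ (4 * n + 4) * r := by
        rw [div_mul_eq_mul_div, div_le_iff₀ hu0]
        have : (0 : ℝ) ≤ 4 * n + 4 := by positivity
        nlinarith
      nlinarith
    have f4 : (4 * n + 5) * r ≤ 1 / 4 := by
      have g1 : (4 * n + 5) * r ≤ (4 * n + 5) * (1 / (256 * (n + 1))) :=
        mul_le_mul_of_nonneg_left hr1 (by positivity)
      have g2 : (4 * n + 5) * (1 / (256 * (n + 1)) : ℝ) ≤ 1 / 4 := by
        rw [mul_one_div, div_le_iff₀ (by positivity)]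
        nlinarith
      linarith
    linarith
  have hpw0 : 0 ≤ 1 - (1 - v) ^ M := by
    have := pow_le_one₀ (n := M) (by linarith : 0 ≤ 1 - v) (by linarith)
    linarith
  have hq1 : 0 ≤ 1 - (1 - u) ^ M := by
    have := pow_le_one₀ (n := M) (by linarith : 0 ≤ 1 - u) (by linarith)
    linarith
  have h3 := h2.and hq1 (n + 1)
  have hP : (1 - (1 - v) ^ M) ^ (n + 1) ≤ (1 / 4 : ℝ) ^ (n + 1) := pow_le_pow_left₀ hpw0 hpw _
  have hQ : 1 - (n + 1) * (1 / 2 : ℝ) ^ (4 * n + 4) ≤ (1 - (1 - u) ^ M) ^ (n + 1) := by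
    have f1 : 1 + ((n + 1 : ℕ) : ℝ) * (-(1 - u) ^ M) ≤ (1 + -(1 - u) ^ M) ^ (n + 1) :=
      one_add_mul_le_pow (by
        have := pow_le_one₀ (n := M) (by linarith : 0 ≤ 1 - u) (by linarith)
        linarith) (n + 1)
    have f2 : (1 + -(1 - u) ^ M) ^ (n + 1) = (1 - (1 - u) ^ M) ^ (n + 1) := by
      rw [← sub_eq_add_neg]
    rw [f2] at f1
    push_cast at f1
    have f3 : ((n : ℝ) + 1) * (1 - u) ^ M ≤ (n + 1) * (1 / 2 : ℝ) ^ (4 * n + 4) :=
      mul_le_mul_of_nonneg_left hqw (by positivity)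
    linarith
  obtain ⟨g, g1, g2, g3⟩ := h3.exact (pow_nonneg hpw0 _)
    (pow_le_one₀ hq1 (by linarith)) (by
      have f1 : (2 : ℝ) ^ n * (1 / 4 : ℝ) ^ (n + 1) ≤ 1 / 4 := by
        have : (2 : ℝ) ^ n * (1 / 4 : ℝ) ^ (n + 1) = (1 / 2) ^ n * (1 / 4) := by
          rw [pow_succ, ← mul_assoc, ← mul_pow]; norm_num
        rw [this]
        have : (1 / 2 : ℝ) ^ n ≤ 1 := pow_le_one₀ (by norm_num) (by norm_num)
        linarith
      have f2 : (2 : ℝ) ^ n * ((n + 1) * (1 / 2 : ℝ) ^ (4 * n + 4)) ≤ 1 / 16 := by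
        have g1 : ((n : ℝ) + 1) ≤ 2 ^ n := by
          exact_mod_cast Nat.lt_two_pow_self (n := n)
        have g2 : (2 : ℝ) ^ n * (2 ^ n * (1 / 2 : ℝ) ^ (4 * n + 4)) = (1 / 4) ^ n * (1 / 16) := by
          have : (4 * n + 4 : ℕ) = n + n + (2 * n) + 4 := by ring
          rw [this, pow_add, pow_add, pow_add, pow_mul]
          have e : (2 : ℝ) ^ n * (2 ^ n * ((1 / 2) ^ n * (1 / 2) ^ n * ((1 / 2) ^ 2) ^ n * (1 / 2) ^ 4))
              = (2 * (1 / 2)) ^ n * (2 * (1 / 2)) ^ n * (((1 / 2) ^ 2) ^ n) * (1 / 2) ^ 4 := by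
            rw [mul_pow]; ring
          rw [e]
          norm_num
        have g3 : (1 / 4 : ℝ) ^ n ≤ 1 := pow_le_one₀ (by norm_num) (by norm_num)
        have g4 : (2 : ℝ) ^ n * ((n + 1) * (1 / 2 : ℝ) ^ (4 * n + 4)) ≤
            (2 : ℝ) ^ n * (2 ^ n * (1 / 2 : ℝ) ^ (4 * n + 4)) := by gcongr
        rw [g2] at g4
        linarith
      have f3 : (0 : ℝ) < 2 ^ n := by positivity
      nlinarith)
  refine ⟨g, g1.mono ?_ (by omega), g2, g3⟩
  have e1 : 1 + (1 + k * S) = 2 + k * S := by ring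
  rw [e1]
  have e2 := Nat.mul_le_mul_right (2 + k * S) hM3
  have e3 : (n + 1) * (2 + M * (2 + k * S)) ≤
      (n + 1) * (2 + ((4 * n + 4) * 4 ^ k + 1) * (2 + k * S)) :=
    Nat.mul_le_mul_left _ (Nat.add_le_add_left e2 2)
  omega

end Pool.Agent.TH931.LA
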