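import Pool.Agent.TH931.LA.Amp

set_option autoImplicit false

/-!
Families of circuits which tell layers of the cube apart.
-/

namespace Pool.Agent.TH931.LA

open Pool.Agent.TH762.AC

variable {G : ℕ → ℕ → Prop}

theorem frac_nonneg {n : ℕ} (f : (Fin n → Bool) → Prop) (w : ℕ) : 0 ≤ frac f w := by
  unfold frac; positivity

theorem frac_le_one {n : ℕ} (f : (Fin n → Bool) → Prop) (w : ℕ) : frac f w ≤ 1 := by
  classical
  unfold frac
  apply div_le_one_of_le₀
  · have : (Finset.univ.filter (fun x : Fin n → Bool => ones x = w ∧ f x)).card ≤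
        (Finset.univ.filter (fun x : Fin n → Bool => ones x = w)).card :=
      Finset.card_le_card (fun x hx => by
        simp only [Finset.mem_filter, Finset.mem_univ, true_and] at hx ⊢
        exact hx.1)
    have h2 : ((Finset.univ.filter (fun x : Fin n → Bool => ones x = w ∧ f x)).card : ℝ) ≤
        ((Finset.univ.filter (fun x : Fin n → Bool => ones x = w)).card : ℝ) := by
      exact_mod_cast this
    convert h2
  · positivity

/-- The logarithm used in the amplification. -/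
def LL (n : ℕ) : ℕ := Nat.log 2 n + 3

theorem LL_bound (n : ℕ) : 4 * (n + 1) ≤ 2 ^ LL n := by
  have h : n < 2 ^ (Nat.log 2 n + 1) := Nat.lt_pow_succ_log_self (by norm_num) n
  have e : 2 ^ LL n = 4 * 2 ^ (Nat.log 2 n + 1) := by
    unfold LL
    rw [show Nat.log 2 n + 3 = (Nat.log 2 n + 1) + 2 by ring, pow_add]; ring
  omega

theorem polyB_LL : PolyB LL := by
  refine (PolyB.id.add (PolyB.const 3)).mono fun n => ?_
  unfold LL
  have := Nat.log_le_self 2 n
  omega

theorem polyB_four_LL : PolyB (fun n => 4 ^ LL n) := by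
  refine (((PolyB.const 8).mul (PolyB.id.add (PolyB.const 1))).pow 2).mono fun n => ?_
  have h1 : 2 ^ Nat.log 2 n ≤ n + 1 := by
    rcases Nat.eq_zero_or_pos n with h | h
    · subst h; simp
    · exact (Nat.pow_log_le_self 2 h.ne').trans (Nat.le_succ n)
  have e : 4 ^ LL n = (8 * 2 ^ Nat.log 2 n) ^ 2 := by
    unfold LL
    rw [show (4 : ℕ) = 2 ^ 2 by norm_num, ← pow_mul, mul_comm, pow_mul]
    congr 1
    rw [pow_add]; ring
  rw [e]
  exact Nat.pow_le_pow_left (Nat.mul_le_mul_left _ h1) 2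

/-- Circuits of polynomial size and constant depth tell `x` with `s` ones and `x` with `t` ones
apart with advantage `1 / (log n + 1) ^ e`, for the pairs with `Q n s t`. -/
def Tell (G : ℕ → ℕ → Prop) (Q : ℕ → ℕ → ℕ → Prop) (e : ℕ) : Prop :=
  ∃ a D : ℕ, ∀ n, 1 ≤ n → ∀ s t, Q n s t → ∃ f : (Fin n → Bool) → Prop,
    CC G n (a * n ^ a + a) D f ∧ 1 / ((Nat.log 2 n : ℝ) + 1) ^ e ≤ |frac f t - frac f s|

theorem iter {Q : ℕ → ℕ → ℕ → Prop} {e : ℕ} (h : Tell G Q e) (j : ℕ) (hj : j ≤ e) :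
    ∃ s, PolyB s ∧ ∃ D, ∀ n, 1 ≤ n → ∀ a b, Q n a b → ∃ p q,
      RC G n (s n) D (fun x => ones x = a) (fun x => ones x = b) p q ∧ 1 / 4 ≤ p ∧ q ≤ 3 / 4 ∧
      (LL n : ℝ) ^ j / (2 * 100 ^ j * (LL n : ℝ) ^ e) ≤ q - p := by
  induction j with
  | zero =>
    obtain ⟨a, D, h⟩ := h
    refine ⟨fun n => 1 + ((a * n ^ a + a) + n), ?_, D + 2, ?_⟩
    · exact (PolyB.const 1).add
        (((((PolyB.const a).mul (PolyB.id.pow a)).add (PolyB.const a))).add PolyB.id)
    intro n hn s t hst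
    obtain ⟨f, hf, hadv⟩ := h n hn s t hst
    have hLL : 1 / (LL n : ℝ) ^ e ≤ 1 / ((Nat.log 2 n : ℝ) + 1) ^ e := by
      apply one_div_le_one_div_of_le (by positivity)
      apply pow_le_pow_left₀ (by positivity)
      unfold LL
      push_cast
      linarith
    have e0 : (LL n : ℝ) ^ 0 / (2 * 100 ^ 0 * (LL n : ℝ) ^ e) = 1 / (LL n : ℝ) ^ e / 2 := by
      have : (0 : ℝ) < (LL n : ℝ) ^ e := by
        apply pow_pos; unfold LL; positivity
      field_simp
    rw [e0]
    have a0 := frac_nonneg f s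
    have a1 := frac_le_one f s
    have b0 := frac_nonneg f t
    have b1 := frac_le_one f t
    rcases le_total (frac f s) (frac f t) with hle | hle
    · rw [abs_of_nonneg (by linarith)] at hadv
      have h1 := ((RC.base hf s t).mono (S' := 1 + ((a * n ^ a + a) + n)) (D' := D + 2)
        (by omega) (by omega) le_rfl le_rfl).mix (by omega) (by omega)
      exact ⟨_, _, h1, by linarith, by linarith, by linarith⟩
    · rw [abs_of_nonpos (by linarith)] at hadv
      have h1 := ((RC.base hf t s).neg.mono (S' := 1 + ((a * n ^ a + a) + n)) (D' := D + 2)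
        (by omega) (by omega) le_rfl le_rfl).mix (by omega) (by omega)
      exact ⟨_, _, h1, by linarith, by linarith, by linarith⟩
  | succ j ih =>
    obtain ⟨s, hs, D, h1⟩ := ih (by omega)
    refine ⟨fun n => 2 + 4 ^ LL n * (2 + LL n * s n), ?_, D + 4, ?_⟩
    · exact (PolyB.const 2).add (polyB_four_LL.mul ((PolyB.const 2).add (polyB_LL.mul hs)))
    intro n hn a b hab
    obtain ⟨p, q, h2, h3, h4, h5⟩ := h1 n hn a b hab
    have hL3 : (3 : ℝ) ≤ (LL n : ℝ) := by
      have : 3 ≤ LL n := by unfold LL; omega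
      exact_mod_cast this
    have hLe : (0 : ℝ) < (LL n : ℝ) ^ e := by positivity
    have hLj : (0 : ℝ) < (LL n : ℝ) ^ j := by positivity
    have hle : (LL n : ℝ) ^ (j + 1) ≤ (LL n : ℝ) ^ e := pow_le_pow_right₀ (by linarith) hj
    have h100 : (1 : ℝ) ≤ 100 ^ j := one_le_pow₀ (by norm_num)
    obtain ⟨p', q', k1, k2, k3, k4⟩ := h2.step (ε := (LL n : ℝ) ^ j / (2 * 100 ^ j * (LL n : ℝ) ^ e))
      (k := LL n) h3 h4 (by positivity) h5 (by unfold LL; omega) (by
        rw [mul_div_assoc', div_le_one (by positivity)]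
        have : (LL n : ℝ) * (LL n : ℝ) ^ j = (LL n : ℝ) ^ (j + 1) := by ring
        rw [this]
        nlinarith)
    refine ⟨p', q', k1, k2, k3, le_trans (le_of_eq ?_) k4⟩
    field_simp
    ring

theorem exact_family {Q : ℕ → ℕ → ℕ → Prop} {e : ℕ} (h : Tell G Q e) :
    ∃ s, PolyB s ∧ ∃ D, ∀ n, 1 ≤ n → ∀ a b, Q n a b → ∃ g, CC G n (s n) D g ∧
      (∀ x, ones x = a → ¬ g x) ∧ ∀ x, ones x = b → g x := by
  obtain ⟨s, hs, D, h1⟩ := iter h e le_rfl
  refine ⟨fun n => 1 + (n + 1) * (2 + ((4 * n + 4) * 4 ^ (8 * 100 ^ e * LL n) + 1) *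
    (2 + 8 * 100 ^ e * LL n * s n)), ?_, D + 5, ?_⟩
  · have hp : PolyB (fun n => 4 ^ (8 * 100 ^ e * LL n)) := by
      refine (polyB_four_LL.pow (8 * 100 ^ e)).mono fun n => le_of_eq ?_
      rw [← pow_mul, mul_comm]
    exact (PolyB.const 1).add ((PolyB.id.add (PolyB.const 1)).mul ((PolyB.const 2).add
      ((((((PolyB.const 4).mul PolyB.id).add (PolyB.const 4)).mul hp).add (PolyB.const 1)).mul
        ((PolyB.const 2).add (((PolyB.const (8 * 100 ^ e)).mul polyB_LL).mul hs)))))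
  intro n hn a b hab
  obtain ⟨p, q, h2, h3, h4, h5⟩ := h1 n hn a b hab
  have hLe : (0 : ℝ) < (LL n : ℝ) ^ e := by
    apply pow_pos; unfold LL; positivity
  have e1 : (LL n : ℝ) ^ e / (2 * 100 ^ e * (LL n : ℝ) ^ e) = 1 / (2 * 100 ^ e) := by
    field_simp
  rw [e1] at h5
  exact h2.finish (K := 8 * 100 ^ e) (L := LL n) h3 h4 (by positivity) h5 (by
    push_cast
    rw [mul_one_div, le_div_iff₀ (by positivity)]
    linarith) (LL_bound n)

/-- Copies of the input and constants. -/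
theorem embed {N r j1 j0 n S D : ℕ} (hn : n = r * N + j1 + j0) {g : (Fin n → Bool) → Prop}
    (hg : CC G n S D g) (w u : ℕ) (h0 : ∀ x, ones x = r * w + j1 → ¬ g x)
    (h1 : ∀ x, ones x = r * u + j1 → g x) :
    ∃ g', CC G N (S + n) (1 + D) g' ∧ (∀ y, ones y = w → ¬ g' y) ∧ ∀ y, ones y = u → g' y := by
  classical
  let e : Fin n ≃ (Fin r × Fin N) ⊕ (Fin j1 ⊕ Fin j0) := Fintype.equivOfCardEq (by
    simp only [Fintype.card_fin, Fintype.card_sum, Fintype.card_prod]
    omega)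
  let h : (Fin N → Bool) → (Fin r × Fin N) ⊕ (Fin j1 ⊕ Fin j0) → Bool := fun y =>
    Sum.elim (fun p => y p.2) (Sum.elim (fun _ => true) (fun _ => false))
  have hones : ∀ y : Fin N → Bool, ones (fun i => h y (e i)) = r * ones y + j1 := by
    intro y
    unfold ones
    rw [Finset.card_filter, Finset.card_filter]
    rw [Equiv.sum_comp e (fun z => if h y z = true then 1 else 0)]
    rw [Fintype.sum_sum_type, Fintype.sum_sum_type, Fintype.sum_prod_type]
    have e1 : ∑ a : Fin r, ∑ b : Fin N, (if h y (Sum.inl (a, b)) = true then 1 else 0) =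
        r * ∑ b : Fin N, (if y b = true then 1 else 0) := by
      show ∑ a : Fin r, ∑ b : Fin N, (if y b = true then 1 else 0) = _
      rw [Finset.sum_const, Finset.card_univ, Fintype.card_fin, smul_eq_mul]
    have e2 : ∑ b : Fin j1, (if h y (Sum.inr (Sum.inl b)) = true then 1 else 0) = j1 := by
      show ∑ b : Fin j1, (if true = true then 1 else 0) = j1
      simp
    have e3 : ∑ b : Fin j0, (if h y (Sum.inr (Sum.inr b)) = true then 1 else 0) = 0 := by
      show ∑ b : Fin j0, (if false = true then 1 else 0) = 0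
      simp
    rw [e1, e2, e3, Nat.add_zero]
  refine ⟨fun y => g (fun i => h y (e i)), ?_, ?_, ?_⟩
  · have h2 := hg.comp (n := N) (s' := 1) (D' := 1) (fun i y => h y (e i) = true) (by
      intro i
      rcases hz : e i with ⟨p⟩ | ⟨b⟩ | ⟨b⟩
      · refine (CC.bit p.2).congr fun y => ?_
        simp [h]
      · refine (CC.const True).congr fun y => ?_
        simp [h]
      · refine (CC.const False).congr fun y => ?_
        simp [h]) (fun y => g (fun i => h y (e i))) (by
      intro y z hz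
      have : (fun i => h y (e i)) = z := by
        funext i
        rw [Bool.eq_iff_iff]
        exact (hz i).symm
      rw [this])
    exact h2.mono (by omega) le_rfl
  · intro y hy
    exact h0 _ (by rw [hones, hy])
  · intro y hy
    exact h1 _ (by rw [hones, hy])

/-- The pairs of layers `s < t`, symmetric about `n / 2`, such that a power `B` of `b` with
`n ^ c ≤ B ^ (c + 1)` divides `s` and `t`. -/
def Far (b c n s t : ℕ) : Prop :=
  s < t ∧ s + t = n ∧ ∃ j, b ^ j ∣ s ∧ b ^ j ∣ t ∧ n ^ c ≤ (b ^ j) ^ (c + 1)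

theorem far_arith {b : ℕ} (hb : 2 ≤ b) (c N w u : ℕ) (hN : 1 ≤ N) (hwu : w < u) (hu : u ≤ N) :
    ∃ r : ℕ, 1 ≤ r * N + r * (N - (w + u)) + r * ((w + u) - N) ∧
      r * N + r * (N - (w + u)) + r * ((w + u) - N) ≤ b * (2 * N) ^ (c + 1) ∧
      Far b c (r * N + r * (N - (w + u)) + r * ((w + u) - N))
        (r * w + r * (N - (w + u))) (r * u + r * (N - (w + u))) := by
  obtain ⟨j, hj1, hj2⟩ : ∃ j, (2 * N) ^ c ≤ b ^ j ∧ b ^ j ≤ b * (2 * N) ^ c := by
    refine ⟨Nat.log b ((2 * N) ^ c) + 1, (Nat.lt_pow_succ_log_self (by omega) _).le, ?_⟩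
    rw [pow_succ, mul_comm]
    refine Nat.mul_le_mul_left _ (Nat.pow_log_le_self b ?_)
    exact (pow_pos (by omega) c).ne'
  have hr : 0 < b ^ j := pow_pos (by omega) j
  set r := b ^ j with hrdef
  set n := r * N + r * (N - (w + u)) + r * ((w + u) - N) with hndef
  have hn : n = r * (N + (N - (w + u)) + ((w + u) - N)) := by
    rw [hndef]; ring
  have hn2 : n ≤ r * (2 * N) := by
    rw [hn]
    exact Nat.mul_le_mul_left _ (by omega)
  refine ⟨r, ?_, ?_, ?_, ?_, j, ?_, ?_, ?_⟩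
  · rw [← hndef, hn]
    exact Nat.mul_pos hr (by omega)
  · rw [← hndef]
    calc n ≤ r * (2 * N) := hn2
      _ ≤ b * (2 * N) ^ c * (2 * N) := Nat.mul_le_mul_right _ hj2
      _ = b * (2 * N) ^ (c + 1) := by ring
  · have := (Nat.mul_lt_mul_left hr).2 hwu
    omega
  · rw [← hndef, hn]
    have : r * w + r * (N - (w + u)) + (r * u + r * (N - (w + u))) =
        r * (w + (N - (w + u)) + (u + (N - (w + u)))) := by ring
    rw [this]
    congr 1
    omega
  · exact Nat.dvd_add (Nat.dvd_mul_right _ _) (Nat.dvd_mul_right _ _)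
  · exact Nat.dvd_add (Nat.dvd_mul_right _ _) (Nat.dvd_mul_right _ _)
  · rw [← hndef, ← hrdef]
    have h2 : n ^ c ≤ (r * (2 * N)) ^ c := Nat.pow_le_pow_left hn2 c
    have h3 : (r * (2 * N)) ^ c ≤ r ^ (c + 1) := by
      rw [mul_pow, pow_succ]
      exact Nat.mul_le_mul_left _ hj1
    exact h2.trans h3

theorem sep_family {b c e : ℕ} (hb : 2 ≤ b) (h : Tell G (Far b c) e) :
    ∃ s, PolyB s ∧ ∃ D, ∀ n, 1 ≤ n → ∀ w u, w < u → u ≤ n → ∃ g, CC G n (s n) D g ∧
      (∀ x, ones x = w → ¬ g x) ∧ ∀ x, ones x = u → g x := by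
  obtain ⟨s, ⟨a, ha⟩, D, h1⟩ := exact_family h
  refine ⟨fun N => (a * (b * (2 * N) ^ (c + 1)) ^ a + a) + b * (2 * N) ^ (c + 1), ?_, 1 + D, ?_⟩
  · have hp : PolyB (fun N => b * (2 * N) ^ (c + 1)) :=
      (PolyB.const b).mul (((PolyB.const 2).mul PolyB.id).pow (c + 1))
    exact (((PolyB.const a).mul (hp.pow a)).add (PolyB.const a)).add hp
  intro N hN w u hwu hu
  obtain ⟨r, k1, k2, k3⟩ := far_arith hb c N w u hN hwu hu
  obtain ⟨g, g1, g2, g3⟩ := h1 _ k1 _ _ k3
  obtain ⟨g', l1, l2, l3⟩ := embed (N := N) (r := r)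
    (j1 := r * (N - (w + u))) (j0 := r * ((w + u) - N)) rfl g1 w u g2 g3
  refine ⟨g', l1.mono ?_ le_rfl, l2, l3⟩
  refine Nat.add_le_add ((ha _).trans ?_) k2
  exact Nat.add_le_add_right (Nat.mul_le_mul_left _ (Nat.pow_le_pow_left k2 a)) a

end Pool.Agent.TH931.LA
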