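import Pool.Agent.TH931.LA.Fam

set_option autoImplicit false

/-!
`TC^0` is contained in the class of the circuits with the further gate `G` if and only if these
circuits tell far layers of the cube apart with a small advantage.
-/

namespace Pool.Agent.TH931.LA

open Pool.Agent.TH762.AC

variable {G : ℕ → ℕ → Prop}

theorem ones_le {n : ℕ} (x : Fin n → Bool) : ones x ≤ n := by
  unfold ones
  exact (Finset.card_le_univ _).trans (by simp)

/-- Thresholds from the separation of pairs of layers. -/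
theorem thresholds {b c e : ℕ} (hb : 2 ≤ b) (h : Tell G (Far b c) e) :
    PF G (ι := fun _ => ℕ) (fun n (τ : ℕ) (x : Fin n → Bool) => τ ≤ ones x) := by
  classical
  obtain ⟨s, hs, D, h1⟩ := sep_family hb h
  have hex : ∀ n (p : ℕ × ℕ), ∃ g : (Fin n → Bool) → Prop,
      (1 ≤ n → CC G n (1 + (1 + s n)) (D + 2) g) ∧
      (1 ≤ n → p.1 ≤ n → p.2 ≤ n → p.1 ≠ p.2 →
        (∀ x, ones x = p.1 → ¬ g x) ∧ ∀ x, ones x = p.2 → g x) := by
    rintro n ⟨w, u⟩
    by_cases hc : 1 ≤ n ∧ w ≤ n ∧ u ≤ n ∧ w ≠ u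
    · obtain ⟨c1, c2, c3, c4⟩ := hc
      rcases Nat.lt_or_gt_of_ne c4 with hlt | hlt
      · obtain ⟨g, g1, g2, g3⟩ := h1 n c1 w u hlt c3
        exact ⟨g, fun _ => g1.mono (by omega) (by omega), fun _ _ _ _ => ⟨g2, g3⟩⟩
      · obtain ⟨g, g1, g2, g3⟩ := h1 n c1 u w hlt c2
        exact ⟨fun x => ¬ g x, fun _ => g1.not.mono (by omega) (by omega),
          fun _ _ _ _ => ⟨fun x hx => not_not.2 (g3 x hx), g2⟩⟩
    · refine ⟨fun _ => True, fun _ => (CC.const True).mono (by omega) (by omega), ?_⟩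
      intro b1 b2 b3 b4
      exact absurd ⟨b1, b2, b3, b4⟩ hc
  choose P hP1 hP2 using hex
  have hPF : PF G (ι := fun _ => ℕ × ℕ) (fun n p => P n p) :=
    ⟨fun n => 1 + (1 + s n), (PolyB.const 1).add ((PolyB.const 1).add hs), D + 2,
      fun n hn p => hP1 n p hn⟩
  have h2 : PF G (ι := fun _ => (ℕ × ℕ) × ℕ) (fun n p (x : Fin n → Bool) =>
      p.2 ≠ p.1.2 → ¬ P n (p.1.2, p.2) x) :=
    (PF.static (fun _ (p : (ℕ × ℕ) × ℕ) => p.2 ≠ p.1.2)).imp
      ((hPF.map (ι' := fun _ => (ℕ × ℕ) × ℕ) (fun _ p => (p.1.2, p.2))).not)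
  have h3 : PF G (ι := fun _ => ℕ × ℕ) (fun n (p : ℕ × ℕ) (x : Fin n → Bool) =>
      ∀ u ≤ n, u ≠ p.2 → ¬ P n (p.2, u) x) := h2.allN
  have h4 : PF G (ι := fun _ => ℕ × ℕ) (fun n (p : ℕ × ℕ) (x : Fin n → Bool) =>
      p.1 ≤ p.2 ∧ ∀ u ≤ n, u ≠ p.2 → ¬ P n (p.2, u) x) :=
    (PF.static (fun _ (p : ℕ × ℕ) => p.1 ≤ p.2)).and h3
  have h5 : PF G (ι := fun _ => ℕ) (fun n (τ : ℕ) (x : Fin n → Bool) =>
      ∃ w ≤ n, τ ≤ w ∧ ∀ u ≤ n, u ≠ w → ¬ P n (w, u) x) := h4.exN
  refine h5.congr ?_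
  intro n τ x hn
  constructor
  · intro h6
    refine ⟨ones x, ones_le x, h6, fun u hu huw => ?_⟩
    exact (hP2 n (ones x, u) hn (ones_le x) hu (fun hh => huw hh.symm)).1 x rfl
  · rintro ⟨w, hw, hτ, hall⟩
    by_cases hcase : ones x = w
    · rw [hcase]; exact hτ
    · exact absurd ((hP2 n (w, ones x) hn hw (ones_le x) (fun hh => hcase hh.symm)).2 x rfl)
        (hall (ones x) (ones_le x) hcase)

theorem excludes_of_tell {b' c e : ℕ} (hb' : 2 ≤ b') (h : Tell G (Far b' c) e) :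
    Excludes G 1 := by
  classical
  obtain ⟨s, ⟨b, hb⟩, D, hD⟩ := thresholds hb' h
  refine ⟨1 + b, D + 1, fun n hn T hT hTc => ?_⟩
  obtain ⟨t, rfl⟩ := Finset.card_eq_one.1 hTc
  have hsize : 1 + s n ≤ (1 + b) * n ^ (1 + b) + (1 + b) := by
    have h1 := hb n
    have h2 : b * n ^ b ≤ (1 + b) * n ^ (1 + b) := by
      apply Nat.mul_le_mul (by omega)
      exact Nat.pow_le_pow_right hn (by omega)
    omega
  refine ⟨fun v x => if v = 0 then t ≤ ones x else ¬ t ≤ ones x, ?_, ?_⟩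
  · intro v
    rw [circ_iff]
    by_cases hv : v = 0
    · refine ((hD n hn t).mono (by omega) (by omega)).congr fun x => ?_
      simp [hv]
    · refine ((hD n hn t).not.mono hsize le_rfl).congr fun x => ?_
      simp [hv]
  · intro x
    constructor
    · by_cases ht : t ≤ ones x
      · exact ⟨0, by simpa using ht⟩
      · exact ⟨1, by simpa using ht⟩
    · intro v hv
      by_cases h0 : v = 0
      · rw [if_pos h0] at hv
        rw [Finset.filter_singleton, if_pos hv, h0]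
        simp
      · rw [if_neg h0] at hv
        rw [Finset.filter_singleton, if_neg hv, Finset.card_empty]
        intro h1
        exact h0 (Fin.ext (by simpa using h1.symm))

theorem layer_nonempty {n t : ℕ} (ht : t ≤ n) : ∃ x : Fin n → Bool, ones x = t := by
  refine ⟨fun i => decide (i.val < t), ?_⟩
  unfold ones
  have : (Finset.univ.filter (fun i : Fin n => decide (i.val < t) = true)) =
      Finset.univ.filter (fun i : Fin n => i.val < t) := by
    ext i; simp
  rw [this, Fin.card_filter_val_lt]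
  omega

theorem tell_of_excludes (b c e : ℕ) (h : Excludes G 1) : Tell G (Far b c) e := by
  classical
  obtain ⟨a, D, h⟩ := h
  refine ⟨a, D, fun n hn s t hst => ?_⟩
  obtain ⟨h1, h2, -⟩ := hst
  obtain ⟨f, hf1, hf2⟩ := h n hn {t} (by
    rw [Finset.singleton_subset_iff, Finset.mem_Icc]; omega) (Finset.card_singleton t)
  have hthr : ∀ x, f 0 x ↔ t ≤ ones x := by
    intro x
    obtain ⟨⟨v, hv⟩, hall⟩ := hf2 x
    constructor
    · intro h0
      by_contra hlt
      have := hall 0 h0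
      rw [Finset.filter_singleton, if_neg hlt] at this
      exact this rfl
    · intro ht
      by_cases hv0 : v = 0
      · rw [← hv0]; exact hv
      · have hv1 : v = 1 := by
          have := v.2
          apply Fin.ext
          have h3 : v.val ≠ 0 := fun hh => hv0 (Fin.ext hh)
          show v.val = 1
          omega
        subst hv1
        have := hall 1 hv
        rw [Finset.filter_singleton, if_pos ht] at this
        exact absurd rfl this
  refine ⟨f 0, (circ_iff _ _ _ _ _).1 (hf1 0), ?_⟩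
  have ft : frac (f 0) t = 1 := by
    obtain ⟨x0, hx0⟩ := layer_nonempty (n := n) (t := t) (by omega)
    unfold frac
    rw [div_eq_one_iff_eq]
    · congr 2
      ext x
      simp only [Finset.mem_filter, Finset.mem_univ, true_and]
      constructor
      · intro h; exact h.1
      · intro h; exact ⟨h, (hthr x).2 h.ge⟩
    · have : 0 < (Finset.univ.filter (fun x : Fin n → Bool => ones x = t)).card :=
        Finset.card_pos.2 ⟨x0, by simp [hx0]⟩
      have h5 : ((Finset.univ.filter (fun x : Fin n → Bool => ones x = t)).card : ℝ) ≠ 0 := by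
        exact_mod_cast this.ne'
      convert h5
  have fs : frac (f 0) s = 0 := by
    unfold frac
    rw [div_eq_zero_iff]
    left
    have : (Finset.univ.filter (fun x : Fin n → Bool => ones x = s ∧ f 0 x)) = ∅ := by
      ext x
      simp only [Finset.mem_filter, Finset.mem_univ, true_and, Finset.notMem_empty, iff_false,
        not_and]
      intro hx hfx
      have := (hthr x).1 hfx
      omega
    have h5 : ((Finset.univ.filter (fun x : Fin n → Bool => ones x = s ∧ f 0 x)).card : ℝ) = 0 := by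
      rw [this]; simp
    convert h5
  rw [ft, fs]
  have h3 : (1 : ℝ) ≤ ((Nat.log 2 n : ℝ) + 1) ^ e := by
    apply one_le_pow₀
    have : (0 : ℝ) ≤ (Nat.log 2 n : ℝ) := Nat.cast_nonneg _
    linarith
  have h4 : 1 / ((Nat.log 2 n : ℝ) + 1) ^ e ≤ 1 := by
    rw [div_le_one (by positivity)]
    exact h3
  simpa using h4

/-- Constant depth circuits of polynomial size with the further gate `G` tell a random word with
`s` ones and a random word with `t` ones apart with advantage at least `1 / (log n + 1) ^ e`, for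
all `n ≥ 1` and all `s < t` with `s + t = n` such that some power `B` of `b` with
`n ^ c ≤ B ^ (c + 1)` divides both `s` and `t`. -/
def TellsLayers (G : ℕ → ℕ → Prop) (b c e : ℕ) : Prop :=
  ∃ a D : ℕ, ∀ n : ℕ, 1 ≤ n → ∀ s t : ℕ, s < t → s + t = n →
    (∃ j : ℕ, b ^ j ∣ s ∧ b ^ j ∣ t ∧ n ^ c ≤ (b ^ j) ^ (c + 1)) →
    ∃ f : (Fin n → Bool) → Prop, Circ G n (a * n ^ a + a) D f ∧
      1 / ((Nat.log 2 n : ℝ) + 1) ^ e ≤ |frac f t - frac f s|

theorem tellsLayers_iff (G : ℕ → ℕ → Prop) (b c e : ℕ) :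
    TellsLayers G b c e ↔ Tell G (Far b c) e := by
  constructor
  · rintro ⟨a, D, h⟩
    refine ⟨a, D, fun n hn s t hst => ?_⟩
    obtain ⟨f, h1, h2⟩ := h n hn s t hst.1 hst.2.1 hst.2.2
    exact ⟨f, (circ_iff _ _ _ _ _).1 h1, h2⟩
  · rintro ⟨a, D, h⟩
    refine ⟨a, D, fun n hn s t h1 h2 h3 => ?_⟩
    obtain ⟨f, h4, h5⟩ := h n hn s t ⟨h1, h2, h3⟩
    exact ⟨f, (circ_iff _ _ _ _ _).2 h4, h5⟩

theorem tc0_sub_iff_tells (G : ℕ → ℕ → Prop) (b c e : ℕ) (hb : 2 ≤ b) :
    TC0 ⊆ {L | Decides G L} ↔ TellsLayers G b c e := by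
  rw [tellsLayers_iff]
  constructor
  · intro h
    have h1 : MajL ∈ TC0 := (decides_iff _ _).2 majL_inCl
    have h2 : Decides G MajL := h h1
    obtain ⟨a, D0, h3⟩ := simul_of_majL ((decides_iff _ _).1 h2)
    exact tell_of_excludes b c e (excl_of_simul h3)
  · intro h
    exact (tc0_sub_iff G).2 ⟨1, le_rfl, excludes_of_tell hb h⟩

theorem acc0_eq_iff_tells (c e : ℕ) :
    ACC0 = TC0 ↔ ∃ m, 2 ≤ m ∧ TellsLayers (fun _ k => k % m ≠ 0) m c e := by
  rw [acc0_eq_iff]
  constructor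
  · rintro ⟨m, hm, h⟩
    exact ⟨m, hm, (tc0_sub_iff_tells _ m c e hm).1 ((tc0_sub_iff _).2 h)⟩
  · rintro ⟨m, hm, h⟩
    exact ⟨m, hm, (tc0_sub_iff _).1 ((tc0_sub_iff_tells _ m c e hm).2 h)⟩

end Pool.Agent.TH931.LA
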