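import Pool.Agent.TH931.LA.MostFin

set_option autoImplicit false

/-!
If `f` differs from majority on at most `Λ * binom(n, n / 2)` inputs, then for every small `i` the
proportion of accepted words jumps by `1 / (16 Λ)` between two layers at distance `2 i`.
-/

namespace Pool.Agent.TH931.LA

open Pool.Agent.TH762.AC

variable {G : ℕ → ℕ → Prop}

/-- Telescoping. -/
theorem telescope (P : ℕ → ℝ) (ε : ℝ) (a b : ℕ) (hab : a ≤ b)
    (h : ∀ j, a ≤ j → j < b → P (j + 1) - P j ≤ ε) : P b - P a ≤ ((b : ℝ) - a) * ε := by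
  induction b, hab using Nat.le_induction with
  | base => simp
  | succ b hab ih =>
    have h1 := ih (fun j h1 h2 => h j h1 (by omega))
    have h2 := h b hab (by omega)
    push_cast
    nlinarith

theorem sum_odd (K : ℕ) : ∑ k ∈ Finset.range K, (2 * (k : ℝ) + 1) = (K : ℝ) ^ 2 := by
  induction K with
  | zero => simp
  | succ K ih => rw [Finset.sum_range_succ, ih]; push_cast; ring

open Classical in
/-- The number of errors in a layer. -/
noncomputable def err {n : ℕ} (f : (Fin n → Bool) → Prop) (w : ℕ) : ℕ :=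
  (Finset.univ.filter (fun x : Fin n → Bool => ones x = w ∧ ¬ (f x ↔ n ≤ 2 * ones x))).card

theorem errors_eq {n : ℕ} (f : (Fin n → Bool) → Prop) :
    errors f = ∑ w ∈ Finset.range (n + 1), err f w := by
  classical
  unfold errors err
  rw [Finset.card_eq_sum_card_fiberwise (f := fun x : Fin n → Bool => ones x)
    (t := Finset.range (n + 1))]
  · apply Finset.sum_congr rfl
    intro w _
    congr 1
    ext x
    simp only [Finset.mem_filter, Finset.mem_univ, true_and]
    tauto
  · intro x _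
    simp only [Finset.coe_range, Set.mem_Iio]
    have := ones_le x
    omega

theorem err_below {n : ℕ} (f : (Fin n → Bool) → Prop) (w : ℕ) (hw : 2 * w < n) :
    (err f w : ℝ) = frac f w * (n.choose w : ℝ) := by
  classical
  rw [frac_mul f w (by omega)]
  unfold err
  congr 2
  ext x
  simp only [Finset.mem_filter, Finset.mem_univ, true_and]
  constructor
  · rintro ⟨h1, h2⟩
    refine ⟨h1, ?_⟩
    by_contra h3
    apply h2
    constructor
    · intro h4; exact absurd h4 h3
    · intro h4; omega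
  · rintro ⟨h1, h2⟩
    refine ⟨h1, fun h3 => ?_⟩
    have := h3.1 h2
    omega

theorem err_above {n : ℕ} (f : (Fin n → Bool) → Prop) (w : ℕ) (hw : n ≤ 2 * w) (hwn : w ≤ n) :
    (err f w : ℝ) = (1 - frac f w) * (n.choose w : ℝ) := by
  classical
  rw [sub_mul, frac_mul f w hwn, one_mul, eq_sub_iff_add_eq]
  have : (Finset.univ.filter (fun x : Fin n → Bool => ones x = w ∧
      ¬ (f x ↔ n ≤ 2 * ones x))).card +
      (Finset.univ.filter (fun x : Fin n → Bool => ones x = w ∧ f x)).card = n.choose w := by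
    rw [← card_layer n w, ← Finset.card_union_of_disjoint]
    · congr 1
      ext x
      simp only [Finset.mem_union, Finset.mem_filter, Finset.mem_univ, true_and]
      constructor
      · rintro (h | h)
        · exact h.1
        · exact h.1
      · intro h
        by_cases hf : f x
        · exact Or.inr ⟨h, hf⟩
        · refine Or.inl ⟨h, fun h3 => hf (h3.2 (by omega))⟩
    · rw [Finset.disjoint_left]
      intro x hx hx'
      simp only [Finset.mem_filter, Finset.mem_univ, true_and] at hx hx'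
      apply hx.2
      constructor
      · intro _; omega
      · intro _; exact hx'.2
  unfold err
  have h2 : (((Finset.univ.filter (fun x : Fin n → Bool => ones x = w ∧
      ¬ (f x ↔ n ≤ 2 * ones x))).card +
      (Finset.univ.filter (fun x : Fin n → Bool => ones x = w ∧ f x)).card : ℕ) : ℝ) =
      (n.choose w : ℝ) := by rw [this]
  push_cast at h2
  convert h2

/-- The jump. -/
theorem jump {h i Λ : ℕ} (hi : 1 ≤ i) (hΛ : 1 ≤ Λ) (hh : 512 * i ^ 2 * Λ ^ 2 ≤ h)
    (f : (Fin (2 * h) → Bool) → Prop)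
    (herr : (errors f : ℝ) ≤ Λ * ((2 * h).choose h : ℝ)) :
    ∃ v, h ≤ v + 16 * i * Λ ∧ v + 2 * i ≤ h + 16 * i * Λ ∧
      1 / (16 * (Λ : ℝ)) ≤ |frac f (v + 2 * i) - frac f v| := by
  classical
  set K := 8 * Λ with hK
  have hK1 : 1 ≤ K := by omega
  have hiK : i * (2 * K) ≤ h := by
    have h1 : i * (2 * K) = 16 * (i * Λ) := by rw [hK]; ring
    have h2 : i * Λ ≤ (i * Λ) ^ 2 := Nat.le_self_pow (by norm_num) _
    have h3 : 512 * i ^ 2 * Λ ^ 2 = 512 * (i * Λ) ^ 2 := by ring
    omega
  obtain ⟨v0, hv0⟩ : ∃ v0, v0 + i * (2 * K - 1) = h := by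
    refine ⟨h - i * (2 * K - 1), ?_⟩
    have : i * (2 * K - 1) ≤ i * (2 * K) := Nat.mul_le_mul_left _ (by omega)
    omega
  have hodd : i * (2 * K - 1) + i = i * (2 * K) := by
    have : 2 * K = (2 * K - 1) + 1 := by omega
    nth_rewrite 2 [this]
    ring
  have h16 : i * (2 * K) = 16 * i * Λ := by rw [hK]; ring
  by_contra hno
  push Not at hno
  set ε : ℝ := 1 / (16 * (Λ : ℝ)) with hε
  have hΛ1 : (1 : ℝ) ≤ Λ := by exact_mod_cast hΛ
  have hε0 : 0 < ε := by positivity
  have hstep : ∀ j, j + 1 < 2 * K →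
      frac f (v0 + 2 * i * (j + 1)) - frac f (v0 + 2 * i * j) ≤ ε := by
    intro j hj
    have e1 : v0 + 2 * i * (j + 1) = (v0 + 2 * i * j) + 2 * i := by ring
    have hij : 2 * i * (j + 1) ≤ 2 * i * (2 * K - 1) := Nat.mul_le_mul_left _ (by omega)
    have hij2 : 2 * i * (j + 1) = 2 * i * j + 2 * i := by ring
    have hij3 : 2 * i * (2 * K - 1) = i * (2 * K - 1) + i * (2 * K - 1) := by ring
    have h1 := hno (v0 + 2 * i * j) (by omega) (by omega)
    rw [e1]
    exact (le_abs_self _).trans h1.le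
  -- the two layers at the same distance from the middle
  have hpair : ∀ k ∈ Finset.range K,
      ((2 * h).choose h : ℝ) / 2 * (1 - (2 * (k : ℝ) + 1) * ε) ≤
      (err f (v0 + 2 * i * (K + k)) : ℝ) + (err f (v0 + 2 * i * (K - 1 - k)) : ℝ) := by
    intro k hk
    rw [Finset.mem_range] at hk
    have htel := telescope (fun j => frac f (v0 + 2 * i * j)) ε (K - 1 - k) (K + k) (by omega)
      (fun j _ h2 => hstep j (by omega))
    have hcast : (((K + k : ℕ) : ℝ) - ((K - 1 - k : ℕ) : ℝ)) = 2 * (k : ℝ) + 1 := by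
      rw [Nat.cast_sub (by omega), Nat.cast_sub (by omega)]
      push_cast
      ring
    rw [hcast] at htel
    obtain ⟨q, hq⟩ : ∃ q, K - 1 - k = q := ⟨_, rfl⟩
    rw [hq] at htel ⊢
    have hqk : q + k + 1 = K := by omega
    have hi2k : i * (2 * K - 1) = 2 * i * q + i * (2 * k + 1) := by
      have : 2 * K - 1 = 2 * q + (2 * k + 1) := by omega
      rw [this]; ring
    have hlo : v0 + 2 * i * q + i * (2 * k + 1) = h := by omega
    have hhi : v0 + 2 * i * (K + k) = h + i * (2 * k + 1) := by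
      have : 2 * i * (K + k) = 2 * i * q + (i * (2 * k + 1) + i * (2 * k + 1)) := by
        rw [← hqk]; ring
      omega
    have hpos : 1 ≤ i * (2 * k + 1) := Nat.mul_pos hi (by omega)
    have hle : i * (2 * k + 1) ≤ h := by omega
    rw [err_above f _ (by omega) (by omega), err_below f _ (by omega)]
    have hsym : ((2 * h).choose (v0 + 2 * i * (K + k)) : ℝ) =
        ((2 * h).choose (v0 + 2 * i * q) : ℝ) := by
      have : (2 * h).choose (v0 + 2 * i * (K + k)) = (2 * h).choose (v0 + 2 * i * q) :=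
        Nat.choose_symm_of_eq_add (by omega)
      exact_mod_cast this
    rw [← hsym]
    have hge : ((2 * h).choose h : ℝ) / 2 ≤ ((2 * h).choose (v0 + 2 * i * (K + k)) : ℝ) := by
      rw [hhi]
      have h5 := choose_near h (i * (2 * k + 1)) (by omega) hle
      refine le_trans ?_ h5
      have hhpos : (0 : ℝ) < h := by
        have : 0 < h := by omega
        exact_mod_cast this
      have h6 : ((i * (2 * k + 1) : ℕ) : ℝ) ^ 2 / h ≤ 1 / 2 := by
        rw [div_le_div_iff₀ hhpos (by norm_num)]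
        have h7 : (i * (2 * k + 1)) ^ 2 * 2 ≤ 1 * h := by
          have h8 : i * (2 * k + 1) ≤ 16 * i * Λ := by omega
          have h9 : (i * (2 * k + 1)) ^ 2 ≤ (16 * i * Λ) ^ 2 := Nat.pow_le_pow_left h8 2
          have h10 : (16 * i * Λ) ^ 2 * 2 = 512 * i ^ 2 * Λ ^ 2 := by ring
          omega
        exact_mod_cast h7
      have h11 : (0 : ℝ) ≤ ((2 * h).choose h : ℝ) := Nat.cast_nonneg _
      nlinarith
    have h12 : (1 - (2 * (k : ℝ) + 1) * ε) ≤
        1 - (frac f (v0 + 2 * i * (K + k)) - frac f (v0 + 2 * i * q)) := by linarith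
    have h13 : 0 ≤ 1 - (2 * (k : ℝ) + 1) * ε := by
      have h14 : (2 * (k : ℝ) + 1) ≤ 16 * Λ := by
        have : 2 * k + 1 ≤ 16 * Λ := by omega
        exact_mod_cast this
      have h15 : (2 * (k : ℝ) + 1) * ε ≤ 1 := by
        rw [hε, mul_one_div, div_le_one (by positivity)]
        exact h14
      linarith
    have h16' : (0 : ℝ) ≤ ((2 * h).choose (v0 + 2 * i * (K + k)) : ℝ) := Nat.cast_nonneg _
    calc ((2 * h).choose h : ℝ) / 2 * (1 - (2 * (k : ℝ) + 1) * ε)
        ≤ ((2 * h).choose (v0 + 2 * i * (K + k)) : ℝ) * (1 - (2 * (k : ℝ) + 1) * ε) :=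
          mul_le_mul_of_nonneg_right hge h13
      _ ≤ ((2 * h).choose (v0 + 2 * i * (K + k)) : ℝ) *
          (1 - (frac f (v0 + 2 * i * (K + k)) - frac f (v0 + 2 * i * q))) :=
          mul_le_mul_of_nonneg_left h12 h16'
      _ = _ := by ring
  have hsum := Finset.sum_le_sum hpair
  have hlhs : ∑ k ∈ Finset.range K, ((2 * h).choose h : ℝ) / 2 * (1 - (2 * (k : ℝ) + 1) * ε) =
      ((2 * h).choose h : ℝ) / 2 * (K - (K : ℝ) ^ 2 * ε) := by
    rw [← Finset.mul_sum, Finset.sum_sub_distrib, ← Finset.sum_mul, sum_odd]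
    simp
  have hKε : (K : ℝ) - (K : ℝ) ^ 2 * ε = 4 * Λ := by
    rw [hε, hK]
    push_cast
    field_simp
    ring
  rw [hlhs, hKε] at hsum
  have hrhs : ∑ k ∈ Finset.range K, ((err f (v0 + 2 * i * (K + k)) : ℝ) +
      (err f (v0 + 2 * i * (K - 1 - k)) : ℝ)) ≤ (errors f : ℝ) := by
    have e1 : ∑ k ∈ Finset.range K, ((err f (v0 + 2 * i * (K + k)) : ℝ) +
        (err f (v0 + 2 * i * (K - 1 - k)) : ℝ)) =
        ∑ j ∈ Finset.range (K + K), (err f (v0 + 2 * i * j) : ℝ) := by
      rw [Finset.sum_add_distrib, Finset.sum_range_add]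
      rw [Finset.sum_range_reflect (fun j => (err f (v0 + 2 * i * j) : ℝ)) K]
      ring
    rw [e1, errors_eq]
    push_cast
    have hinj : Set.InjOn (fun j => v0 + 2 * i * j) (Finset.range (K + K) : Set ℕ) := by
      intro a _ b _ hab
      simp only at hab
      have : 2 * i * a = 2 * i * b := by omega
      exact Nat.eq_of_mul_eq_mul_left (by omega) this
    have e2 : ∑ j ∈ Finset.range (K + K), (err f (v0 + 2 * i * j) : ℝ) =
        ∑ w ∈ (Finset.range (K + K)).image (fun j => v0 + 2 * i * j), (err f w : ℝ) := by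
      rw [Finset.sum_image hinj]
    rw [e2]
    apply Finset.sum_le_sum_of_subset_of_nonneg
    · intro w hw
      rw [Finset.mem_image] at hw
      obtain ⟨j, hj, rfl⟩ := hw
      rw [Finset.mem_range] at hj ⊢
      have h1 : 2 * i * j ≤ 2 * i * (2 * K - 1) := Nat.mul_le_mul_left _ (by omega)
      have h2 : 2 * i * (2 * K - 1) = i * (2 * K - 1) + i * (2 * K - 1) := by ring
      omega
    · intro w _ _
      exact Nat.cast_nonneg _
  have hCpos : (0 : ℝ) < ((2 * h).choose h : ℝ) := by
    exact_mod_cast Nat.choose_pos (by omega)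
  nlinarith

end Pool.Agent.TH931.LA
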