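import Pool.Agent.TH931.LA.Fin

set_option autoImplicit false

/-!
Circuits which agree with majority on all but slightly fewer inputs than the middle layer has.
-/

namespace Pool.Agent.TH931.LA

open Pool.Agent.TH762.AC

variable {G : ℕ → ℕ → Prop}

/-- Separation of all pairs of layers from the separation of the pairs in `Q`, if every pair can
be moved into `Q`. -/
theorem sep_general {Q : ℕ → ℕ → ℕ → Prop} {e : ℕ} {B : ℕ → ℕ} (hB : PolyB B)
    (hQ : ∀ N w u : ℕ, 1 ≤ N → w < u → u ≤ N → ∃ r j1 j0 : ℕ, 1 ≤ r * N + j1 + j0 ∧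
      r * N + j1 + j0 ≤ B N ∧ Q (r * N + j1 + j0) (r * w + j1) (r * u + j1))
    (h : Tell G Q e) :
    ∃ s, PolyB s ∧ ∃ D, ∀ n, 1 ≤ n → ∀ w u, w < u → u ≤ n → ∃ g, CC G n (s n) D g ∧
      (∀ x, ones x = w → ¬ g x) ∧ ∀ x, ones x = u → g x := by
  obtain ⟨s, ⟨a, ha⟩, D, h1⟩ := exact_family h
  refine ⟨fun N => (a * (B N) ^ a + a) + B N, ?_, 1 + D, ?_⟩
  · exact (((PolyB.const a).mul (hB.pow a)).add (PolyB.const a)).add hB
  intro N hN w u hwu hu
  obtain ⟨r, j1, j0, k1, k2, k3⟩ := hQ N w u hN hwu hu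
  obtain ⟨g, g1, g2, g3⟩ := h1 _ k1 _ _ k3
  obtain ⟨g', l1, l2, l3⟩ := embed (N := N) (r := r) (j1 := j1) (j0 := j0) rfl g1 w u g2 g3
  refine ⟨g', l1.mono ?_ le_rfl, l2, l3⟩
  refine Nat.add_le_add ((ha _).trans ?_) k2
  exact Nat.add_le_add_right (Nat.mul_le_mul_left _ (Nat.pow_le_pow_left k2 a)) a

/-- Thresholds from the separation of all pairs of layers. -/
theorem thresholds_of_sep (h : ∃ s, PolyB s ∧ ∃ D, ∀ n, 1 ≤ n → ∀ w u, w < u → u ≤ n →
      ∃ g, CC G n (s n) D g ∧ (∀ x, ones x = w → ¬ g x) ∧ ∀ x, ones x = u → g x) :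
    PF G (ι := fun _ => ℕ) (fun n (τ : ℕ) (x : Fin n → Bool) => τ ≤ ones x) := by
  classical
  obtain ⟨s, hs, D, h1⟩ := h
  have hex : ∀ n (p : ℕ × ℕ), ∃ g : (Fin n → Bool) → Prop,
      (1 ≤ n → CC G n (1 + (1 + s n)) (D + 2) g) ∧
      (1 ≤ n → p.1 ≤ n → p.2 ≤ n → p.1 ≠ p.2 →
        (∀ x, ones x = p.1 → ¬ g x) ∧ ∀ x, ones x = p.2 → g x) := by
    rintro n ⟨w, u⟩
    by_cases hc : 1 ≤ n ∧ w ≤ n ∧ u ≤ n ∧ w ≠ u
    · obtain ⟨c1, c2, c3, c4⟩ := hc
      rcases Nat.lt_or_gt_of_ne c4 with hlt | hlt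
      · obtain ⟨g, g1, g2, g3⟩ := h1 n c1 w u hlt c3
        exact ⟨g, fun _ => g1.mono (by omega) (by omega), fun _ _ _ _ => ⟨g2, g3⟩⟩
      · obtain ⟨g, g1, g2, g3⟩ := h1 n c1 u w hlt c2
        exact ⟨fun x => ¬ g x, fun _ => g1.not.mono (by omega) (by omega),
          fun _ _ _ _ => ⟨fun x hx => not_not.2 (g3 x hx), g2⟩⟩
    · refine ⟨fun _ => True, fun _ => (CC.const True).mono (by omega) (by omega), ?_⟩
      intro b1 b2 b3 b4
      exact absurd ⟨b1, b2, b3, b4⟩ hc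
  choose P hP1 hP2 using hex
  have hPF : PF G (ι := fun _ => ℕ × ℕ) (fun n p => P n p) :=
    ⟨fun n => 1 + (1 + s n), (PolyB.const 1).add ((PolyB.const 1).add hs), D + 2,
      fun n hn p => hP1 n p hn⟩
  have h2 : PF G (ι := fun _ => (ℕ × ℕ) × ℕ) (fun n p (x : Fin n → Bool) =>
      p.2 ≠ p.1.2 → ¬ P n (p.1.2, p.2) x) :=
    (PF.static (fun _ (p : (ℕ × ℕ) × ℕ) => p.2 ≠ p.1.2)).imp
      ((hPF.map (ι' := fun _ => (ℕ × ℕ) × ℕ) (fun _ p => (p.1.2, p.2))).not)
  have h3 : PF G (ι := fun _ => ℕ × ℕ) (fun n (p : ℕ × ℕ) (x : Fin n → Bool) =>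
      ∀ u ≤ n, u ≠ p.2 → ¬ P n (p.2, u) x) := h2.allN
  have h4 : PF G (ι := fun _ => ℕ × ℕ) (fun n (p : ℕ × ℕ) (x : Fin n → Bool) =>
      p.1 ≤ p.2 ∧ ∀ u ≤ n, u ≠ p.2 → ¬ P n (p.2, u) x) :=
    (PF.static (fun _ (p : ℕ × ℕ) => p.1 ≤ p.2)).and h3
  have h5 : PF G (ι := fun _ => ℕ) (fun n (τ : ℕ) (x : Fin n → Bool) =>
      ∃ w ≤ n, τ ≤ w ∧ ∀ u ≤ n, u ≠ w → ¬ P n (w, u) x) := h4.exN
  refine h5.congr ?_
  intro n τ x hn
  constructor
  · intro h6
    refine ⟨ones x, ones_le x, h6, fun u hu huw => ?_⟩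
    exact (hP2 n (ones x, u) hn (ones_le x) hu (fun hh => huw hh.symm)).1 x rfl
  · rintro ⟨w, hw, hτ, hall⟩
    by_cases hcase : ones x = w
    · rw [hcase]; exact hτ
    · exact absurd ((hP2 n (w, ones x) hn hw (ones_le x) (fun hh => hcase hh.symm)).2 x rfl)
        (hall (ones x) (ones_le x) hcase)

theorem excludes_of_thresholds
    (h : PF G (ι := fun _ => ℕ) (fun n (τ : ℕ) (x : Fin n → Bool) => τ ≤ ones x)) :
    Excludes G 1 := by
  classical
  obtain ⟨s, ⟨b, hb⟩, D, hD⟩ := h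
  refine ⟨1 + b, D + 1, fun n hn T hT hTc => ?_⟩
  obtain ⟨t, rfl⟩ := Finset.card_eq_one.1 hTc
  have hsize : 1 + s n ≤ (1 + b) * n ^ (1 + b) + (1 + b) := by
    have h1 := hb n
    have h2 : b * n ^ b ≤ (1 + b) * n ^ (1 + b) := by
      apply Nat.mul_le_mul (by omega)
      exact Nat.pow_le_pow_right hn (by omega)
    omega
  refine ⟨fun v x => if v = 0 then t ≤ ones x else ¬ t ≤ ones x, ?_, ?_⟩
  · intro v
    rw [circ_iff]
    by_cases hv : v = 0
    · refine ((hD n hn t).mono (by omega) (by omega)).congr fun x => ?_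
      simp [hv]
    · refine ((hD n hn t).not.mono hsize le_rfl).congr fun x => ?_
      simp [hv]
  · intro x
    constructor
    · by_cases ht : t ≤ ones x
      · exact ⟨0, by simpa using ht⟩
      · exact ⟨1, by simpa using ht⟩
    · intro v hv
      by_cases h0 : v = 0
      · rw [if_pos h0] at hv
        rw [Finset.filter_singleton, if_pos hv, h0]
        simp
      · rw [if_neg h0] at hv
        rw [Finset.filter_singleton, if_neg hv, Finset.card_empty]
        intro h1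
        exact h0 (Fin.ext (by simpa using h1.symm))

/-- The number of words with `w` ones. -/
theorem card_layer (n w : ℕ) :
    (Finset.univ.filter (fun x : Fin n → Bool => ones x = w)).card = n.choose w := by
  classical
  have h := Finset.card_powersetCard w (Finset.univ : Finset (Fin n))
  rw [Finset.card_univ, Fintype.card_fin] at h
  rw [← h]
  refine Finset.card_bij' (fun x _ => Finset.univ.filter (fun i => x i = true))
    (fun S _ => fun i => decide (i ∈ S)) ?_ ?_ ?_ ?_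
  · intro x hx
    simp only [Finset.mem_filter, Finset.mem_univ, true_and] at hx
    rw [Finset.mem_powersetCard]
    exact ⟨Finset.subset_univ _, hx⟩
  · intro S hS
    rw [Finset.mem_powersetCard] at hS
    simp only [Finset.mem_filter, Finset.mem_univ, true_and]
    unfold ones
    rw [← hS.2]
    congr 1
    ext i; simp
  · intro x _
    funext i; simp
  · intro S _
    ext i; simp

/-- The layers near the middle are almost as large as the middle layer. -/
theorem choose_near (h i : ℕ) (hh : 1 ≤ h) (hi : i ≤ h) :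
    (1 - (i : ℝ) ^ 2 / h) * ((2 * h).choose h : ℝ) ≤ ((2 * h).choose (h + i) : ℝ) := by
  induction i with
  | zero => simp
  | succ i ih =>
    have ih' := ih (by omega)
    have hpos : (0 : ℝ) < h := by exact_mod_cast hh
    have hrec : ((2 * h).choose (h + (i + 1)) : ℝ) * (h + i + 1) =
        ((2 * h).choose (h + i) : ℝ) * (h - i) := by
      have h1 := Nat.choose_succ_right_eq (2 * h) (h + i)
      have h2 : 2 * h - (h + i) = h - i := by omega
      rw [h2] at h1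
      have h3 : (((2 * h).choose (h + i + 1) * (h + i + 1) : ℕ) : ℝ) =
          (((2 * h).choose (h + i) * (h - i) : ℕ) : ℝ) := by rw [h1]
      push_cast [Nat.cast_sub (by omega : i ≤ h)] at h3
      exact h3
    have hi' : (i : ℝ) + 1 ≤ h := by exact_mod_cast hi
    have hi0 : (0 : ℝ) ≤ i := Nat.cast_nonneg i
    set c := ((2 * h).choose (h + i) : ℝ) with hc
    set c' := ((2 * h).choose (h + (i + 1)) : ℝ) with hc'
    set C := ((2 * h).choose h : ℝ) with hC
    have hC0 : 0 ≤ C := Nat.cast_nonneg _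
    have hc0 : 0 ≤ c := Nat.cast_nonneg _
    have e1 : c' = c * ((h - i) / (h + i + 1)) := by
      field_simp
      linarith
    have e2 : 1 - (2 * i + 1) / (h : ℝ) ≤ (h - i) / (h + i + 1) := by
      rw [le_div_iff₀ (by positivity)]
      have : (1 - (2 * i + 1) / (h : ℝ)) * (h + i + 1) =
          h + i + 1 - (2 * i + 1) * ((h + i + 1) / h) := by
        field_simp
      rw [this]
      have h4 : 1 ≤ ((h : ℝ) + i + 1) / h := by
        rw [le_div_iff₀ hpos]; linarith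
      nlinarith
    by_cases hneg : 1 - (i : ℝ) ^ 2 / h ≤ 0
    · have : (1 - ((i + 1 : ℕ) : ℝ) ^ 2 / h) ≤ 0 := by
        have h5 : (i : ℝ) ^ 2 / h ≤ ((i + 1 : ℕ) : ℝ) ^ 2 / h := by
          apply div_le_div_of_nonneg_right _ hpos.le
          push_cast
          nlinarith
        linarith
      have h6 : (1 - ((i + 1 : ℕ) : ℝ) ^ 2 / h) * C ≤ 0 :=
        mul_nonpos_of_nonpos_of_nonneg this hC0
      exact h6.trans (Nat.cast_nonneg _)
    · push Not at hneg
      rw [e1]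
      have h7 : c * (1 - (2 * i + 1) / (h : ℝ)) ≤ c * ((h - i) / (h + i + 1)) :=
        mul_le_mul_of_nonneg_left e2 hc0
      by_cases hneg2 : 1 - (2 * i + 1) / (h : ℝ) ≤ 0
      · have : (1 - ((i + 1 : ℕ) : ℝ) ^ 2 / h) ≤ 0 := by
          have h5 : (2 * i + 1) / (h : ℝ) ≤ ((i + 1 : ℕ) : ℝ) ^ 2 / h := by
            apply div_le_div_of_nonneg_right _ hpos.le
            push_cast
            nlinarith
          linarith
        have h6 : (1 - ((i + 1 : ℕ) : ℝ) ^ 2 / h) * C ≤ 0 :=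
          mul_nonpos_of_nonpos_of_nonneg this hC0
        refine h6.trans (mul_nonneg hc0 ?_)
        exact div_nonneg (by linarith) (by positivity)
      · push Not at hneg2
        have h8 : (1 - (i : ℝ) ^ 2 / h) * C * (1 - (2 * i + 1) / (h : ℝ)) ≤
            c * (1 - (2 * i + 1) / (h : ℝ)) := mul_le_mul_of_nonneg_right ih' hneg2.le
        have h9 : (1 - ((i + 1 : ℕ) : ℝ) ^ 2 / h) ≤
            (1 - (i : ℝ) ^ 2 / h) * (1 - (2 * i + 1) / (h : ℝ)) := by
          push_cast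
          have : (1 - (i : ℝ) ^ 2 / h) * (1 - (2 * i + 1) / (h : ℝ)) =
              1 - ((i : ℝ) + 1) ^ 2 / h + (i : ℝ) ^ 2 / h * ((2 * i + 1) / h) := by
            field_simp; ring
          rw [this]
          have : 0 ≤ (i : ℝ) ^ 2 / h * ((2 * i + 1) / h) := by positivity
          linarith
        have h10 := mul_le_mul_of_nonneg_right h9 hC0
        nlinarith

/-- Powers of the logarithm are small. -/
theorem log_pow_bound (e : ℕ) : ∃ K : ℕ, 1 ≤ K ∧ ∀ x : ℕ, x ^ e ≤ K * 2 ^ x := by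
  have h := tendsto_pow_const_div_const_pow_of_one_lt e (r := (2 : ℝ)) (by norm_num)
  obtain ⟨K, hK⟩ := h.bddAbove_range
  refine ⟨⌈K⌉₊ + 1, by omega, fun x => ?_⟩
  have h1 : (x : ℝ) ^ e / 2 ^ x ≤ K := hK ⟨x, rfl⟩
  rw [div_le_iff₀ (by positivity)] at h1
  have h2 : (x : ℝ) ^ e ≤ ((⌈K⌉₊ + 1 : ℕ) : ℝ) * 2 ^ x := by
    refine h1.trans (mul_le_mul_of_nonneg_right ?_ (by positivity))
    push_cast
    have := Nat.le_ceil K
    linarith
  exact_mod_cast h2

/-- Pairs of layers close to the middle. -/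
def Near (e n s t : ℕ) : Prop :=
  s < t ∧ s + t = n ∧ Even n ∧ (t - s) ^ 2 * (Nat.log 2 n + 1) ^ e ≤ n

theorem near_arith (e : ℕ) : ∃ K : ℕ, ∀ N w u : ℕ, 1 ≤ N → w < u → u ≤ N →
    ∃ r j1 j0 : ℕ, 1 ≤ r * N + j1 + j0 ∧ r * N + j1 + j0 ≤ K * N ^ 4 ∧
      Near e (r * N + j1 + j0) (r * w + j1) (r * u + j1) := by
  obtain ⟨K, hK1, hK⟩ := log_pow_bound (2 * e)
  refine ⟨32 * K, fun N w u hN hwu hu => ?_⟩
  set h := 16 * K * N ^ 4 with hh
  have hN4 : N ≤ N ^ 4 := Nat.le_self_pow (by norm_num) N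
  have h16 : 16 * N ≤ h := by
    rw [hh]
    calc 16 * N ≤ 16 * N ^ 4 := Nat.mul_le_mul_left _ hN4
      _ = 16 * 1 * N ^ 4 := by ring
      _ ≤ 16 * K * N ^ 4 := Nat.mul_le_mul_right _ (Nat.mul_le_mul_left _ hK1)
  set x := N - (w + u) with hx
  set y := (w + u) - N with hy
  obtain ⟨P, hP⟩ : ∃ P, P + N + x + y = h := ⟨h - N - x - y, by omega⟩
  have hn : 2 * N + (2 * x + P) + (2 * y + P) = 2 * h := by omega
  refine ⟨2, 2 * x + P, 2 * y + P, by omega, ?_, ?_, ?_, ?_, ?_⟩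
  · rw [hn, hh]
    exact le_of_eq (by ring)
  · omega
  · omega
  · rw [hn]; exact even_two_mul h
  · rw [hn]
    have e1 : 2 * u + (2 * x + P) - (2 * w + (2 * x + P)) = 2 * (u - w) := by omega
    rw [e1]
    have hL : 2 ^ (Nat.log 2 (2 * h) + 1) ≤ 4 * h := by
      rw [pow_succ]
      have := Nat.pow_log_le_self 2 (show 2 * h ≠ 0 by omega)
      omega
    have h2 := (hK (Nat.log 2 (2 * h) + 1)).trans (Nat.mul_le_mul_left K hL)
    set L := Nat.log 2 (2 * h) + 1 with hLdef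
    -- `(2 N ^ 2 L ^ e) ^ 2 ≤ h ^ 2`
    have h3 : (2 * N ^ 2 * L ^ e) ^ 2 ≤ h ^ 2 := by
      calc (2 * N ^ 2 * L ^ e) ^ 2 = 4 * N ^ 4 * L ^ (2 * e) := by
            rw [mul_pow, mul_pow, ← pow_mul, ← pow_mul, mul_comm e 2]; norm_num
        _ ≤ 4 * N ^ 4 * (K * (4 * h)) := Nat.mul_le_mul_left _ h2
        _ = (16 * K * N ^ 4) * h := by ring
        _ = h ^ 2 := by rw [← hh]; ring
    have h4 : 2 * N ^ 2 * L ^ e ≤ h := by
      exact (Nat.pow_le_pow_iff_left (by norm_num)).1 h3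
    calc (2 * (u - w)) ^ 2 * L ^ e ≤ (2 * N) ^ 2 * L ^ e :=
          Nat.mul_le_mul_right _ (Nat.pow_le_pow_left (by omega) 2)
      _ = 2 * (2 * N ^ 2 * L ^ e) := by ring
      _ ≤ 2 * h := Nat.mul_le_mul_left _ h4

end Pool.Agent.TH931.LA
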