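import Pool.Agent.TH931.LA.Most

set_option autoImplicit false

/-!
Majority on most inputs.
-/

namespace Pool.Agent.TH931.LA

open Pool.Agent.TH762.AC

variable {G : ℕ → ℕ → Prop}

open Classical in
/-- The number of inputs on which `f` differs from majority. -/
noncomputable def errors {n : ℕ} (f : (Fin n → Bool) → Prop) : ℕ :=
  (Finset.univ.filter (fun x => ¬ (f x ↔ n ≤ 2 * ones x))).card

open Classical in
theorem frac_mul {n : ℕ} (f : (Fin n → Bool) → Prop) (w : ℕ) (hw : w ≤ n) :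
    frac f w * (n.choose w : ℝ) =
      ((Finset.univ.filter (fun x : Fin n → Bool => ones x = w ∧ f x)).card : ℝ) := by
  have h1 : (n.choose w : ℝ) ≠ 0 := by exact_mod_cast (Nat.choose_pos hw).ne'
  have h2 := card_layer n w
  unfold frac
  have h3 : ((Finset.univ.filter (fun x : Fin n → Bool => ones x = w)).card : ℝ) =
      (n.choose w : ℝ) := by exact_mod_cast h2
  rw [div_mul_eq_mul_div]
  rw [div_eq_iff]
  · congr 1
    rw [← h3]
  · rw [h3]; exact h1

theorem tell_of_most {e : ℕ} (h : ∃ a D : ℕ, ∀ n : ℕ, 1 ≤ n → ∃ f : (Fin n → Bool) → Prop,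
      CC G n (a * n ^ a + a) D f ∧
      (errors f : ℝ) ≤ (1 - 1 / ((Nat.log 2 n : ℝ) + 1) ^ e) * (n.choose (n / 2) : ℝ)) :
    Tell G (Near e) (e + 1) := by
  classical
  obtain ⟨a, D, h⟩ := h
  refine ⟨a, D, fun n hn s t hst => ?_⟩
  obtain ⟨f, hf, herr⟩ := h n hn
  refine ⟨f, hf, ?_⟩
  obtain ⟨h1, h2, ⟨k, hk⟩, h4⟩ := hst
  have hk' : n = 2 * k := by omega
  have hk1 : 1 ≤ k := by omega
  obtain ⟨i, hi⟩ : ∃ i, t = k + i := ⟨t - k, by omega⟩
  have hs : s + i = k := by omega
  have hts : t - s = 2 * i := by omega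
  have hlog : 1 ≤ Nat.log 2 n := Nat.log_pos (by norm_num) (by omega)
  set L : ℝ := (Nat.log 2 n : ℝ) + 1 with hL
  have hL2 : 2 ≤ L := by
    have : (1 : ℝ) ≤ (Nat.log 2 n : ℝ) := by exact_mod_cast hlog
    linarith
  set Λ : ℝ := L ^ e with hΛ
  have hΛ1 : 1 ≤ Λ := one_le_pow₀ (by linarith)
  have hΛ0 : 0 < Λ := by linarith
  -- sizes of the layers
  set c : ℝ := (n.choose t : ℝ) with hc
  set C0 : ℝ := (n.choose (n / 2) : ℝ) with hC0
  have hcs : (n.choose s : ℝ) = c := by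
    rw [hc]
    have : n.choose s = n.choose t := Nat.choose_symm_of_eq_add (by omega)
    rw [this]
  have hn2 : n / 2 = k := by omega
  have hC00 : 0 ≤ C0 := Nat.cast_nonneg _
  have hcpos : 0 < c := by
    rw [hc]; exact_mod_cast Nat.choose_pos (by omega)
  have hkpos : (0 : ℝ) < k := by exact_mod_cast hk1
  have hratio : (i : ℝ) ^ 2 / k ≤ 1 / (2 * Λ) := by
    rw [div_le_div_iff₀ hkpos (by positivity)]
    have h5 : (((t - s) ^ 2 * (Nat.log 2 n + 1) ^ e : ℕ) : ℝ) ≤ (n : ℝ) := by exact_mod_cast h4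
    rw [hts, hk'] at h5
    push_cast at h5
    have h6 : ((Nat.log 2 (2 * k) : ℝ) + 1) ^ e = Λ := by
      rw [hΛ, hL, hk']
    rw [h6] at h5
    nlinarith
  have hcge : (1 - 1 / (2 * Λ)) * C0 ≤ c := by
    have h5 := choose_near k i hk1 (by omega)
    have h6 : (1 - 1 / (2 * Λ)) * C0 ≤ (1 - (i : ℝ) ^ 2 / k) * C0 :=
      mul_le_mul_of_nonneg_right (by linarith) hC00
    refine h6.trans ?_
    rw [hC0, hc, hn2, hi, hk']
    exact h5
  -- errors
  have hEt := frac_mul f t (by omega)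
  have hEs := frac_mul f s (by omega)
  rw [← hc] at hEt
  rw [hcs] at hEs
  have hsub : (Finset.univ.filter (fun x : Fin n → Bool => ones x = t ∧ ¬ f x)).card +
      (Finset.univ.filter (fun x : Fin n → Bool => ones x = s ∧ f x)).card ≤ errors f := by
    rw [← Finset.card_union_of_disjoint]
    · unfold errors
      apply Finset.card_le_card
      intro x hx
      simp only [Finset.mem_union, Finset.mem_filter, Finset.mem_univ, true_and] at hx ⊢
      rcases hx with ⟨hx1, hx2⟩ | ⟨hx1, hx2⟩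
      · intro hiff
        exact hx2 (hiff.2 (by omega))
      · intro hiff
        have := hiff.1 hx2
        omega
    · rw [Finset.disjoint_left]
      intro x hx hx'
      simp only [Finset.mem_filter, Finset.mem_univ, true_and] at hx hx'
      omega
  have hsplit : (Finset.univ.filter (fun x : Fin n → Bool => ones x = t ∧ ¬ f x)).card +
      (Finset.univ.filter (fun x : Fin n → Bool => ones x = t ∧ f x)).card = n.choose t := by
    rw [← card_layer n t, ← Finset.card_union_of_disjoint]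
    · congr 1
      ext x
      simp only [Finset.mem_union, Finset.mem_filter, Finset.mem_univ, true_and]
      tauto
    · rw [Finset.disjoint_left]
      intro x hx hx'
      simp only [Finset.mem_filter, Finset.mem_univ, true_and] at hx hx'
      exact hx.2 hx'.2
  have hsubR : ((Finset.univ.filter (fun x : Fin n → Bool => ones x = t ∧ ¬ f x)).card : ℝ) +
      ((Finset.univ.filter (fun x : Fin n → Bool => ones x = s ∧ f x)).card : ℝ) ≤
      (errors f : ℝ) := by exact_mod_cast hsub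
  have hsplitR : ((Finset.univ.filter (fun x : Fin n → Bool => ones x = t ∧ ¬ f x)).card : ℝ) +
      ((Finset.univ.filter (fun x : Fin n → Bool => ones x = t ∧ f x)).card : ℝ) = c := by
    rw [hc]; exact_mod_cast hsplit
  have hE : (errors f : ℝ) ≤ (1 - 1 / (2 * Λ)) * c := by
    refine herr.trans ?_
    have h5 : (1 - 1 / Λ) ≤ (1 - 1 / (2 * Λ)) * (1 - 1 / (2 * Λ)) := by
      have : (1 - 1 / (2 * Λ)) * (1 - 1 / (2 * Λ)) = (1 - 1 / Λ) + (1 / (2 * Λ)) ^ 2 := by
        field_simp; ring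
      rw [this]
      have : 0 ≤ (1 / (2 * Λ)) ^ 2 := sq_nonneg _
      linarith
    have h6 : 0 ≤ 1 - 1 / (2 * Λ) := by
      have : 1 / (2 * Λ) ≤ 1 := by
        rw [div_le_one (by positivity)]; linarith
      linarith
    calc (1 - 1 / Λ) * C0 ≤ (1 - 1 / (2 * Λ)) * (1 - 1 / (2 * Λ)) * C0 :=
          mul_le_mul_of_nonneg_right h5 hC00
      _ = (1 - 1 / (2 * Λ)) * ((1 - 1 / (2 * Λ)) * C0) := by ring
      _ ≤ (1 - 1 / (2 * Λ)) * c := mul_le_mul_of_nonneg_left hcge h6
  have hadv : 1 / (2 * Λ) ≤ frac f t - frac f s := by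
    have h5 : 1 / (2 * Λ) * c ≤ (frac f t - frac f s) * c := by
      rw [sub_mul, hEt, hEs]
      nlinarith
    exact le_of_mul_le_mul_right h5 hcpos
  refine le_trans ?_ (hadv.trans (le_abs_self _))
  rw [pow_succ, ← hΛ]
  apply one_div_le_one_div_of_le (by positivity)
  nlinarith

/-- Constant depth circuits of polynomial size with the further gate `G` agree with majority on
all but at most `(1 - 1 / (log n + 1) ^ e) * binom(n, n / 2)` of the `2 ^ n` inputs. -/
def MostlyMajority (G : ℕ → ℕ → Prop) (e : ℕ) : Prop :=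
  ∃ a D : ℕ, ∀ n : ℕ, 1 ≤ n → ∃ f : (Fin n → Bool) → Prop, Circ G n (a * n ^ a + a) D f ∧
    (errors f : ℝ) ≤ (1 - 1 / ((Nat.log 2 n : ℝ) + 1) ^ e) * (n.choose (n / 2) : ℝ)

theorem tc0_sub_iff_mostly (G : ℕ → ℕ → Prop) (e : ℕ) :
    TC0 ⊆ {L | Decides G L} ↔ MostlyMajority G e := by
  classical
  constructor
  · intro h
    have h1 : MajL ∈ TC0 := (decides_iff _ _).2 majL_inCl
    obtain ⟨a, D, h2⟩ := h h1
    refine ⟨a, D, fun n hn => ⟨_, h2 n hn, ?_⟩⟩
    have h3 : errors (fun x : Fin n → Bool => List.ofFn x ∈ MajL) = 0 := by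
      unfold errors
      rw [Finset.card_eq_zero, Finset.filter_eq_empty_iff]
      intro x _
      rw [not_not]
      show (List.ofFn x).length ≤ 2 * (List.ofFn x).count true ↔ _
      rw [count_ofFn, List.length_ofFn]
    rw [h3]
    have h4 : (1 : ℝ) ≤ ((Nat.log 2 n : ℝ) + 1) ^ e := by
      apply one_le_pow₀
      have : (0 : ℝ) ≤ (Nat.log 2 n : ℝ) := Nat.cast_nonneg _
      linarith
    have h5 : 1 / ((Nat.log 2 n : ℝ) + 1) ^ e ≤ 1 := by
      rw [div_le_one (by positivity)]; exact h4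
    simp only [Nat.cast_zero]
    exact mul_nonneg (by linarith) (Nat.cast_nonneg _)
  · rintro ⟨a, D, h⟩
    have h1 : Tell G (Near e) (e + 1) := tell_of_most ⟨a, D, fun n hn => by
      obtain ⟨f, h2, h3⟩ := h n hn
      exact ⟨f, (circ_iff _ _ _ _ _).1 h2, h3⟩⟩
    obtain ⟨K, hK⟩ := near_arith e
    have h2 := sep_general (B := fun N => K * N ^ 4) ((PolyB.const K).mul (PolyB.id.pow 4)) hK h1
    exact (tc0_sub_iff G).2 ⟨1, le_rfl, excludes_of_thresholds (thresholds_of_sep h2)⟩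

theorem acc0_eq_iff_mostly (e : ℕ) :
    ACC0 = TC0 ↔ ∃ m, 2 ≤ m ∧ MostlyMajority (fun _ k => k % m ≠ 0) e := by
  rw [acc0_eq_iff]
  constructor
  · rintro ⟨m, hm, h⟩
    exact ⟨m, hm, (tc0_sub_iff_mostly _ e).1 ((tc0_sub_iff _).2 h)⟩
  · rintro ⟨m, hm, h⟩
    exact ⟨m, hm, (tc0_sub_iff _).1 ((tc0_sub_iff_mostly _ e).2 h)⟩

end Pool.Agent.TH931.LA
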