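import Pool.Agent.TH931.LA.Jump

set_option autoImplicit false

/-!
Majority on all but `(log n) ^ e * binom(n, n / 2)` inputs.
-/

namespace Pool.Agent.TH931.LA

open Pool.Agent.TH762.AC

variable {G : ℕ → ℕ → Prop}

/-- Constant depth circuits of polynomial size with the further gate `G` agree with majority on
all but at most `(log n + 1) ^ e * binom(n, n / 2)` of the `2 ^ n` inputs. -/
def NearMajority (G : ℕ → ℕ → Prop) (e : ℕ) : Prop :=
  ∃ a D : ℕ, ∀ n : ℕ, 1 ≤ n → ∃ f : (Fin n → Bool) → Prop, Circ G n (a * n ^ a + a) D f ∧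
    errors f ≤ (Nat.log 2 n + 1) ^ e * n.choose (n / 2)

theorem sep_of_near {e : ℕ} (h : NearMajority G e) :
    ∃ s, PolyB s ∧ ∃ D, ∀ n, 1 ≤ n → ∀ w u, w < u → u ≤ n → ∃ g, CC G n (s n) D g ∧
      (∀ x, ones x = w → ¬ g x) ∧ ∀ x, ones x = u → g x := by
  obtain ⟨a, D, h⟩ := h
  let Q : ℕ → ℕ → ℕ → Prop := fun n s t => ∃ f : (Fin n → Bool) → Prop,
    CC G n (a * n ^ a + a) D f ∧
      1 / ((Nat.log 2 n : ℝ) + 1) ^ (e + 4) ≤ |frac f t - frac f s|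
  have hT : Tell G Q (e + 4) := ⟨a, D, fun n _ s t hst => hst⟩
  obtain ⟨K, hK1, hK⟩ := log_pow_bound (4 * e)
  refine sep_general (B := fun N => 2 ^ 21 * K * N ^ 4)
    ((PolyB.const (2 ^ 21 * K)).mul (PolyB.id.pow 4)) ?_ hT
  intro N w u hN hwu hu
  set H := 2 ^ 20 * K * N ^ 4 with hH
  have hN4 : N ≤ N ^ 4 := Nat.le_self_pow (by norm_num) N
  have hHN : 2 ^ 20 * N ≤ H := by
    rw [hH]
    calc 2 ^ 20 * N ≤ 2 ^ 20 * N ^ 4 := Nat.mul_le_mul_left _ hN4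
      _ = 2 ^ 20 * 1 * N ^ 4 := by ring
      _ ≤ 2 ^ 20 * K * N ^ 4 := Nat.mul_le_mul_right _ (Nat.mul_le_mul_left _ hK1)
  obtain ⟨i, hi⟩ : ∃ i, u = w + i := ⟨u - w, by omega⟩
  have hi1 : 1 ≤ i := by omega
  have hiN : i ≤ N := by omega
  set L := Nat.log 2 (2 * H) + 1 with hL
  have hlog : 1 ≤ Nat.log 2 (2 * H) := Nat.log_pos (by norm_num) (by omega)
  set Λ := L ^ e with hΛ
  have hΛ1 : 1 ≤ Λ := Nat.one_le_pow _ _ (by omega)
  have h2L : 2 ^ L ≤ 4 * H := by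
    rw [hL, pow_succ]
    have := Nat.pow_log_le_self 2 (show 2 * H ≠ 0 by omega)
    omega
  have hbig : 512 * i ^ 2 * Λ ^ 2 ≤ H := by
    have h2 := (hK L).trans (Nat.mul_le_mul_left K h2L)
    have h3 : (512 * N ^ 2 * Λ ^ 2) ^ 2 ≤ H ^ 2 := by
      calc (512 * N ^ 2 * Λ ^ 2) ^ 2 = 2 ^ 18 * N ^ 4 * L ^ (4 * e) := by
            rw [hΛ, mul_pow, mul_pow, ← pow_mul, ← pow_mul, ← pow_mul]
            rw [show e * (2 * 2) = 4 * e by ring]
            norm_num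
        _ ≤ 2 ^ 18 * N ^ 4 * (K * (4 * H)) := Nat.mul_le_mul_left _ h2
        _ = (2 ^ 20 * K * N ^ 4) * H := by ring
        _ = H ^ 2 := by rw [← hH]; ring
    have h4 : 512 * N ^ 2 * Λ ^ 2 ≤ H := (Nat.pow_le_pow_iff_left (by norm_num)).1 h3
    refine le_trans ?_ h4
    exact Nat.mul_le_mul_right _ (Nat.mul_le_mul_left _ (Nat.pow_le_pow_left hiN 2))
  have hiΛ : 512 * (i * Λ) ≤ H := by
    have h2 : i * Λ ≤ (i * Λ) ^ 2 := Nat.le_self_pow (by norm_num) _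
    have h3 : 512 * i ^ 2 * Λ ^ 2 = 512 * (i * Λ) ^ 2 := by ring
    omega
  obtain ⟨f, hf, herr⟩ := h (2 * H) (by omega)
  have herr' : (errors f : ℝ) ≤ Λ * ((2 * H).choose H : ℝ) := by
    have h1 : 2 * H / 2 = H := by omega
    rw [h1] at herr
    exact_mod_cast herr
  obtain ⟨v, hv1, hv2, hv3⟩ := jump hi1 hΛ1 hbig f herr'
  have hassoc : 16 * i * Λ = 16 * (i * Λ) := by ring
  obtain ⟨j1, hj1⟩ : ∃ j1, 2 * w + j1 = v := ⟨v - 2 * w, by omega⟩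
  obtain ⟨j0, hj0⟩ : ∃ j0, 2 * N + j1 + j0 = 2 * H := ⟨2 * H - (2 * N + j1), by omega⟩
  refine ⟨2, j1, j0, by omega, ?_, ?_⟩
  · rw [hj0, hH]
    exact le_of_eq (by ring)
  · rw [hj0, hj1, hi]
    have e1 : 2 * (w + i) + j1 = v + 2 * i := by omega
    rw [e1]
    refine ⟨f, (circ_iff _ _ _ _ _).1 hf, le_trans ?_ hv3⟩
    have hLR : ((Nat.log 2 (2 * H) : ℝ) + 1) = (L : ℝ) := by
      rw [hL]; push_cast; ring
    have hΛR : (Λ : ℝ) = (L : ℝ) ^ e := by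
      rw [hΛ]; push_cast; ring
    rw [hLR, hΛR]
    have hL2 : (2 : ℝ) ≤ (L : ℝ) := by
      have : 2 ≤ L := by omega
      exact_mod_cast this
    have h16 : (16 : ℝ) ≤ (L : ℝ) ^ 4 := by
      calc (16 : ℝ) = 2 ^ 4 := by norm_num
        _ ≤ (L : ℝ) ^ 4 := pow_le_pow_left₀ (by norm_num) hL2 4
    have hLe : (0 : ℝ) < (L : ℝ) ^ e := by positivity
    apply one_div_le_one_div_of_le (by positivity)
    rw [pow_add]
    nlinarith

theorem tc0_sub_iff_near (G : ℕ → ℕ → Prop) (e : ℕ) :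
    TC0 ⊆ {L | Decides G L} ↔ NearMajority G e := by
  classical
  constructor
  · intro h
    have h1 : MajL ∈ TC0 := (decides_iff _ _).2 majL_inCl
    obtain ⟨a, D, h2⟩ := h h1
    refine ⟨a, D, fun n hn => ⟨_, h2 n hn, ?_⟩⟩
    have h3 : errors (fun x : Fin n → Bool => List.ofFn x ∈ MajL) = 0 := by
      unfold errors
      rw [Finset.card_eq_zero, Finset.filter_eq_empty_iff]
      intro x _
      rw [not_not]
      show (List.ofFn x).length ≤ 2 * (List.ofFn x).count true ↔ _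
      rw [count_ofFn, List.length_ofFn]
    rw [h3]
    exact Nat.zero_le _
  · intro h
    exact (tc0_sub_iff G).2
      ⟨1, le_rfl, excludes_of_thresholds (thresholds_of_sep (sep_of_near h))⟩

theorem acc0_eq_iff_near (e : ℕ) :
    ACC0 = TC0 ↔ ∃ m, 2 ≤ m ∧ NearMajority (fun _ k => k % m ≠ 0) e := by
  rw [acc0_eq_iff]
  constructor
  · rintro ⟨m, hm, h⟩
    exact ⟨m, hm, (tc0_sub_iff_near _ e).1 ((tc0_sub_iff _).2 h)⟩
  · rintro ⟨m, hm, h⟩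
    exact ⟨m, hm, (tc0_sub_iff _).1 ((tc0_sub_iff_near _ e).2 h)⟩

end Pool.Agent.TH931.LA
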