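import Pool.Agent.TH931.LA.NearFin

set_option autoImplicit false

/-!
If majority has no `G`-circuits, then at infinitely many scales `N` there is a number `d ≤ N` such
that the layer profiles of all `G`-circuits are almost periodic with period `d`.
-/

namespace Pool.Agent.TH931.LA

open Pool.Agent.TH762.AC

variable {G : ℕ → ℕ → Prop}

/-- At the scale `N` the number `d` is a common almost-period of the layer profiles
`w ↦ frac f w` of all predicates `f` of `n ≤ N ^ c` bits computed by circuits with at most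
`a n ^ a + a` gates and depth at most `D`: the proportions of accepted words in the layers `v` and
`v + r d` differ by less than `1 / (log n + 1) ^ e`, for all `r ≥ 1` and `r N ≤ v ≤ n - r N`. -/
def CommonPeriod (G : ℕ → ℕ → Prop) (a D e c N d : ℕ) : Prop :=
  ∀ n : ℕ, 1 ≤ n → n ≤ N ^ c → ∀ f : (Fin n → Bool) → Prop, Circ G n (a * n ^ a + a) D f →
    ∀ r v : ℕ, 1 ≤ r → r * N ≤ v → v + r * N ≤ n →
      |frac f (v + r * d) - frac f v| < 1 / ((Nat.log 2 n : ℝ) + 1) ^ e

theorem tc0_of_no_period {a D e c : ℕ}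
    (h : ∀ N d : ℕ, 2 ≤ N → 1 ≤ d → d ≤ N → ¬ CommonPeriod G a D e c N d) :
    TC0 ⊆ {L | Decides G L} := by
  let Q : ℕ → ℕ → ℕ → Prop := fun n s t => ∃ f : (Fin n → Bool) → Prop,
    CC G n (a * n ^ a + a) D f ∧ 1 / ((Nat.log 2 n : ℝ) + 1) ^ e ≤ |frac f t - frac f s|
  have hT : Tell G Q e := ⟨a, D, fun n _ s t hst => hst⟩
  have hsep := sep_general (B := fun N => (N + 1) ^ c)
    ((PolyB.id.add (PolyB.const 1)).pow c) (by
    intro N w u hN hwu hu
    obtain ⟨d, hd⟩ : ∃ d, u = w + d := ⟨u - w, by omega⟩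
    have h1 := h (N + 1) d (by omega) (by omega) (by omega)
    unfold CommonPeriod at h1
    push Not at h1
    obtain ⟨n, hn1, hn2, f, hf, r, v, hr, hv1, hv2, hadv⟩ := h1
    have e1 : r * (N + 1) = r * N + r := by ring
    have e2 : r * w ≤ r * N := Nat.mul_le_mul_left _ (by omega)
    obtain ⟨j1, hj1⟩ : ∃ j1, r * w + j1 = v := ⟨v - r * w, by omega⟩
    obtain ⟨j0, hj0⟩ : ∃ j0, r * N + j1 + j0 = n := ⟨n - (r * N + j1), by omega⟩
    refine ⟨r, j1, j0, by omega, by rw [hj0]; exact hn2, ?_⟩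
    rw [hj0, hj1]
    have e3 : r * u + j1 = v + r * d := by
      rw [hd, Nat.mul_add]; omega
    rw [e3]
    exact ⟨f, (circ_iff _ _ _ _ _).1 hf, hadv⟩) hT
  exact (tc0_sub_iff G).2 ⟨1, le_rfl, excludes_of_thresholds (thresholds_of_sep hsep)⟩

theorem frac_maj {n : ℕ} (w : ℕ) (hw : w ≤ n) :
    frac (fun x : Fin n → Bool => n ≤ 2 * ones x) w = if n ≤ 2 * w then 1 else 0 := by
  classical
  have h1 : (n.choose w : ℝ) ≠ 0 := by exact_mod_cast (Nat.choose_pos hw).ne'
  have h2 := frac_mul (fun x : Fin n → Bool => n ≤ 2 * ones x) w hw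
  split_ifs with h
  · have h3 : (Finset.univ.filter (fun x : Fin n → Bool => ones x = w ∧ n ≤ 2 * ones x)).card =
        n.choose w := by
      rw [← card_layer n w]
      congr 1
      ext x
      simp only [Finset.mem_filter, Finset.mem_univ, true_and]
      constructor
      · intro hx; exact hx.1
      · intro hx; exact ⟨hx, by omega⟩
    have h4 : frac (fun x : Fin n → Bool => n ≤ 2 * ones x) w * (n.choose w : ℝ) =
        1 * (n.choose w : ℝ) := by
      rw [h2, one_mul, ← h3]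
      congr!
    exact mul_right_cancel₀ h1 h4
  · have h3 : (Finset.univ.filter (fun x : Fin n → Bool => ones x = w ∧ n ≤ 2 * ones x)).card =
        0 := by
      rw [Finset.card_eq_zero, Finset.filter_eq_empty_iff]
      intro x _ hx
      omega
    have h4 : frac (fun x : Fin n → Bool => n ≤ 2 * ones x) w * (n.choose w : ℝ) =
        0 * (n.choose w : ℝ) := by
      rw [h2, zero_mul]
      have h5 : ((Finset.univ.filter
          (fun x : Fin n → Bool => ones x = w ∧ n ≤ 2 * ones x)).card : ℝ) = 0 := by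
        rw [h3]; simp
      convert h5
    exact mul_right_cancel₀ h1 h4

theorem no_period_of_tc0 (e c : ℕ) (hc : 3 ≤ c) (h : TC0 ⊆ {L | Decides G L}) :
    ∃ a D : ℕ, ∀ N d : ℕ, 2 ≤ N → 1 ≤ d → d ≤ N → ¬ CommonPeriod G a D e c N d := by
  classical
  have h1 : MajL ∈ TC0 := (decides_iff _ _).2 majL_inCl
  obtain ⟨a, D, h2⟩ := h h1
  refine ⟨a, D, fun N d hN hd hdN hP => ?_⟩
  have hmaj : (fun x : Fin (2 * N + 1) → Bool => List.ofFn x ∈ MajL) =
      fun x => 2 * N + 1 ≤ 2 * ones x := by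
    funext x
    apply propext
    show (List.ofFn x).length ≤ 2 * (List.ofFn x).count true ↔ _
    rw [count_ofFn, List.length_ofFn]
  have h3 := h2 (2 * N + 1) (by omega)
  rw [hmaj] at h3
  have hle : 2 * N + 1 ≤ N ^ c := by
    have h4 : N ^ 3 ≤ N ^ c := Nat.pow_le_pow_right (by omega) hc
    have h5 : 2 * N + 1 ≤ N ^ 3 := by
      have h6 : N ^ 3 = N * N * N := by ring
      rw [h6]
      nlinarith [Nat.mul_le_mul hN hN]
    omega
  have h4 := hP (2 * N + 1) (by omega) hle _ h3 1 N le_rfl (by omega) (by omega)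
  rw [frac_maj (N + 1 * d) (by omega), frac_maj N (by omega), if_pos (by omega),
    if_neg (by omega)] at h4
  have h5 : (1 : ℝ) ≤ ((Nat.log 2 (2 * N + 1) : ℝ) + 1) ^ e := by
    apply one_le_pow₀
    have : (0 : ℝ) ≤ (Nat.log 2 (2 * N + 1) : ℝ) := Nat.cast_nonneg _
    linarith
  have h6 : 1 / ((Nat.log 2 (2 * N + 1) : ℝ) + 1) ^ e ≤ 1 := by
    rw [div_le_one (by positivity)]; exact h5
  rw [sub_zero, abs_one] at h4
  linarith

theorem not_tc0_sub_iff (G : ℕ → ℕ → Prop) (e c : ℕ) (hc : 3 ≤ c) :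
    ¬ TC0 ⊆ {L | Decides G L} ↔
      ∀ a D : ℕ, ∃ N d : ℕ, 2 ≤ N ∧ 1 ≤ d ∧ d ≤ N ∧ CommonPeriod G a D e c N d := by
  constructor
  · intro h a D
    by_contra hno
    push Not at hno
    exact h (tc0_of_no_period (a := a) (D := D) (e := e) (c := c)
      fun N d h1 h2 h3 h4 => hno N d h1 h2 h3 h4)
  · intro h hsub
    obtain ⟨a, D, h1⟩ := no_period_of_tc0 e c hc hsub
    obtain ⟨N, d, h2, h3, h4, h5⟩ := h a D
    exact h1 N d h2 h3 h4 h5

theorem acc0_ne_iff (e c : ℕ) (hc : 3 ≤ c) :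
    ACC0 ≠ TC0 ↔ ∀ m : ℕ, 2 ≤ m → ∀ a D : ℕ, ∃ N d : ℕ, 2 ≤ N ∧ 1 ≤ d ∧ d ≤ N ∧
      CommonPeriod (fun _ k => k % m ≠ 0) a D e c N d := by
  rw [Ne, acc0_eq_iff]
  push Not
  constructor
  · intro h m hm
    refine (not_tc0_sub_iff _ e c hc).1 fun hsub => ?_
    obtain ⟨k, hk, h1⟩ := (tc0_sub_iff _).1 hsub
    exact h m hm k hk h1
  · intro h m hm k hk hex
    exact (not_tc0_sub_iff _ e c hc).2 (h m hm) ((tc0_sub_iff _).2 ⟨k, hk, hex⟩)

end Pool.Agent.TH931.LA
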