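import Pool.Agent.TH931.LA.RC

set_option autoImplicit false

/-!
A random permutation of the inputs turns the proportion of the accepted words in a layer into a
probability of acceptance which is the same for all words of the layer.
-/

namespace Pool.Agent.TH931.LA

open Pool.Agent.TH762.AC

variable {G : ℕ → ℕ → Prop} {n S D : ℕ}

open Classical in
/-- The proportion of the words with `w` ones which satisfy `f`, among all words with `w` ones. -/
noncomputable def frac {n : ℕ} (f : (Fin n → Bool) → Prop) (w : ℕ) : ℝ :=
  ((Finset.univ.filter (fun x => ones x = w ∧ f x)).card : ℝ) /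
    ((Finset.univ.filter (fun x : Fin n → Bool => ones x = w)).card : ℝ)

theorem ones_comp (x : Fin n → Bool) (π : Equiv.Perm (Fin n)) : ones (x ∘ π) = ones x := by
  unfold ones
  refine Finset.card_bij' (fun i _ => π i) (fun i _ => π.symm i) ?_ ?_ ?_ ?_
  · intro i hi; simpa using hi
  · intro i hi; simpa using hi
  · intro i _; simp
  · intro i _; simp

theorem exists_perm (x y : Fin n → Bool) (h : ones x = ones y) :
    ∃ σ : Equiv.Perm (Fin n), y = x ∘ σ := by
  classical
  unfold ones at h
  have h1 : Fintype.card {i // y i = true} = Fintype.card {i // x i = true} := by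
    rw [Fintype.card_subtype, Fintype.card_subtype, h]
  let e : {i // y i = true} ≃ {i // x i = true} := Fintype.equivOfCardEq h1
  refine ⟨e.extendSubtype, ?_⟩
  funext i
  show y i = x (e.extendSubtype i)
  by_cases hi : y i = true
  · rw [hi, e.extendSubtype_mem i hi]
  · have := e.extendSubtype_not_mem i hi
    have h2 : y i = false := by simpa using hi
    have h3 : x (e.extendSubtype i) = false := by simpa using this
    rw [h2, h3]

theorem perm_count (f : (Fin n → Bool) → Prop) (x : Fin n → Bool) :
    pr (fun π : Equiv.Perm (Fin n) => f (x ∘ π)) = frac f (ones x) := by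
  classical
  set w := ones x with hw
  set c : (Fin n → Bool) → ℕ := fun y =>
    (Finset.univ.filter (fun π : Equiv.Perm (Fin n) => f (y ∘ π))).card with hc
  have hconst : ∀ y, ones y = w → c y = c x := by
    intro y hy
    obtain ⟨σ, hσ⟩ := exists_perm x y (by rw [← hw, hy])
    subst hσ
    refine Finset.card_bij' (fun π _ => σ * π) (fun π _ => σ⁻¹ * π) ?_ ?_ ?_ ?_
    · intro π hπ
      simpa [Function.comp_assoc] using hπ
    · intro π hπ
      simp only [Finset.mem_filter, Finset.mem_univ, true_and] at hπ ⊢
      have : (x ∘ σ) ∘ (σ⁻¹ * π : Equiv.Perm (Fin n)) = x ∘ π := by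
        funext i; simp
      rw [this]; exact hπ
    · intro π _; simp
    · intro π _; simp
  have hsum : ∑ y ∈ Finset.univ.filter (fun y : Fin n → Bool => ones y = w), c y =
      Fintype.card (Equiv.Perm (Fin n)) *
        (Finset.univ.filter (fun y : Fin n → Bool => ones y = w ∧ f y)).card := by
    simp only [hc, Finset.card_filter]
    rw [Finset.sum_comm]
    have : ∀ π : Equiv.Perm (Fin n),
        ∑ y ∈ Finset.univ.filter (fun y : Fin n → Bool => ones y = w),
          (if f (y ∘ π) then 1 else 0) =
        ∑ y : Fin n → Bool, if ones y = w ∧ f y then 1 else 0 := by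
      intro π
      rw [Finset.sum_filter]
      refine Fintype.sum_equiv (Equiv.arrowCongr π.symm (Equiv.refl Bool)) _ _ ?_
      intro y
      have e : (Equiv.arrowCongr π.symm (Equiv.refl Bool)) y = y ∘ π := by
        funext i; simp
      rw [e, ones_comp]
      by_cases h1 : ones y = w
      · simp [h1]
      · simp [h1]
    rw [Finset.sum_congr rfl (fun π _ => this π), Finset.sum_const, Finset.card_univ]
    rfl
  have hsum2 : ∑ y ∈ Finset.univ.filter (fun y : Fin n → Bool => ones y = w), c y =
      (Finset.univ.filter (fun y : Fin n → Bool => ones y = w)).card * c x := by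
    rw [Finset.sum_congr rfl (fun y hy => hconst y (Finset.mem_filter.1 hy).2), Finset.sum_const,
      smul_eq_mul]
  have hpos : 0 < (Finset.univ.filter (fun y : Fin n → Bool => ones y = w)).card :=
    Finset.card_pos.2 ⟨x, by simp [hw]⟩
  have hpos2 : 0 < Fintype.card (Equiv.Perm (Fin n)) := Fintype.card_pos
  have hE := hsum2.symm.trans hsum
  rw [pr_eq]
  unfold frac
  have e1 : ((Finset.univ.filter (fun π : Equiv.Perm (Fin n) => f (x ∘ π))).card : ℝ) = (c x : ℝ) :=
    rfl
  rw [e1, div_eq_div_iff (by exact_mod_cast hpos2.ne') (by
    have : ((Finset.univ.filter (fun y : Fin n → Bool => ones y = w)).card : ℝ) ≠ 0 := by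
      exact_mod_cast hpos.ne'
    convert this)]
  have hE' : ((Finset.univ.filter (fun y : Fin n → Bool => ones y = w)).card : ℝ) * (c x : ℝ) =
      (Fintype.card (Equiv.Perm (Fin n)) : ℝ) *
        ((Finset.univ.filter (fun y : Fin n → Bool => ones y = w ∧ f y)).card : ℝ) := by
    exact_mod_cast hE
  rw [mul_comm]
  convert hE' using 1
  rw [mul_comm]

/-- The random circuit obtained from `f` by a random permutation of its inputs. -/
theorem RC.base {f : (Fin n → Bool) → Prop} (hf : CC G n S D f) (s t : ℕ) :
    RC G n (S + n) (1 + D) (fun x => ones x = s) (fun x => ones x = t) (frac f s) (frac f t) := by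
  refine ⟨Equiv.Perm (Fin n), inferInstance, inferInstance, fun π x => f (x ∘ π), fun π => ?_,
    fun x hx => ?_, fun x hx => ?_⟩
  · have h := hf.comp (n := n) (s' := 1) (D' := 1) (fun i x => x (π i) = true)
      (fun i => CC.bit (π i)) (fun x => f (x ∘ π)) (by
        intro x y hy
        have : x ∘ π = y := by
          funext i
          rw [Bool.eq_iff_iff]
          exact (hy i).symm
        rw [this])
    exact h.mono (by omega) le_rfl
  · rw [perm_count, hx]
  · rw [perm_count, hx]

end Pool.Agent.TH931.LA
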