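import Pool.Agent.TH762.AC.Law

set_option autoImplicit false

/-!
Random circuits: finite families of circuits, and what AND, OR, NOT of independent copies do to
the probabilities of acceptance.
-/

namespace Pool.Agent.TH931.LA

open Pool.Agent.TH762.AC

variable {G : ℕ → ℕ → Prop} {n S D : ℕ}

open Classical in
/-- The proportion of the `ω` with `P ω`. -/
noncomputable def pr {Ω : Type} [Fintype Ω] (P : Ω → Prop) : ℝ :=
  ((Finset.univ.filter P).card : ℝ) / (Fintype.card Ω : ℝ)

theorem pr_eq {Ω : Type} [Fintype Ω] (P : Ω → Prop) [DecidablePred P] :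
    pr P = ((Finset.univ.filter P).card : ℝ) / (Fintype.card Ω : ℝ) := by
  unfold pr
  congr!

theorem pr_nonneg {Ω : Type} [Fintype Ω] (P : Ω → Prop) : 0 ≤ pr P := by
  unfold pr; positivity

theorem pr_le_one {Ω : Type} [Fintype Ω] (P : Ω → Prop) : pr P ≤ 1 := by
  classical
  unfold pr
  apply div_le_one_of_le₀
  · exact_mod_cast Finset.card_le_univ _
  · positivity

theorem pr_not {Ω : Type} [Fintype Ω] [Nonempty Ω] (P : Ω → Prop) :
    pr (fun ω => ¬ P ω) = 1 - pr P := by
  classical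
  rw [pr_eq, pr_eq]
  have h0 : (Fintype.card Ω : ℝ) ≠ 0 := by exact_mod_cast Fintype.card_ne_zero
  rw [eq_sub_iff_add_eq, ← add_div, div_eq_one_iff_eq h0]
  have h := Finset.card_filter_add_card_filter_not (s := (Finset.univ : Finset Ω)) P
  rw [Finset.card_univ] at h
  rw [add_comm]
  exact_mod_cast h

theorem pr_all {Ω : Type} [Fintype Ω] (P : Ω → Prop) (k : ℕ) :
    pr (fun ω : Fin k → Ω => ∀ j, P (ω j)) = pr P ^ k := by
  classical
  rw [pr_eq, pr_eq, div_pow]
  congr 1
  · have h1 : (Finset.univ.filter (fun ω : Fin k → Ω => ∀ j, P (ω j))).card =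
        Fintype.card {ω : Fin k → Ω // ∀ j, P (ω j)} := by
      rw [Fintype.card_subtype]
    have h2 : Fintype.card {ω : Fin k → Ω // ∀ j, P (ω j)} = Fintype.card (Fin k → {a // P a}) :=
      Fintype.card_congr Equiv.subtypePiEquivPi
    rw [h1, h2]
    rw [Fintype.card_fun, Fintype.card_fin, Fintype.card_subtype]
    push_cast
    rfl
  · rw [Fintype.card_fun, Fintype.card_fin]
    push_cast
    rfl

/-- A random circuit: finitely many circuits with at most `S` gates and depth at most `D`; every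
`x` in `A` is accepted by a proportion of at most `p` of them, every `x` in `B` by a proportion of
at least `q`. -/
def RC (G : ℕ → ℕ → Prop) (n S D : ℕ) (A B : (Fin n → Bool) → Prop) (p q : ℝ) : Prop :=
  ∃ (Ω : Type) (_ : Fintype Ω) (_ : Nonempty Ω) (F : Ω → (Fin n → Bool) → Prop),
    (∀ ω, CC G n S D (F ω)) ∧ (∀ x, A x → pr (fun ω => F ω x) ≤ p) ∧
      (∀ x, B x → q ≤ pr (fun ω => F ω x))

variable {A B : (Fin n → Bool) → Prop} {p q : ℝ}

theorem RC.mono (h : RC G n S D A B p q) {S' D' : ℕ} {p' q' : ℝ} (hS : S ≤ S') (hD : D ≤ D')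
    (hp : p ≤ p') (hq : q' ≤ q) : RC G n S' D' A B p' q' := by
  obtain ⟨Ω, i1, i2, F, h1, h2, h3⟩ := h
  exact ⟨Ω, i1, i2, F, fun ω => (h1 ω).mono hS hD, fun x hx => (h2 x hx).trans hp,
    fun x hx => hq.trans (h3 x hx)⟩

theorem RC.neg (h : RC G n S D A B p q) : RC G n (1 + S) (D + 1) B A (1 - q) (1 - p) := by
  obtain ⟨Ω, i1, i2, F, h1, h2, h3⟩ := h
  refine ⟨Ω, i1, i2, fun ω x => ¬ F ω x, fun ω => (h1 ω).not, fun x hx => ?_, fun x hx => ?_⟩
  · rw [pr_not]
    have := h3 x hx
    linarith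
  · rw [pr_not]
    have := h2 x hx
    linarith

theorem RC.and (h : RC G n S D A B p q) (hq : 0 ≤ q) (k : ℕ) :
    RC G n (1 + k * S) (D + 1) A B (p ^ k) (q ^ k) := by
  classical
  obtain ⟨Ω, i1, i2, F, h1, h2, h3⟩ := h
  refine ⟨Fin k → Ω, inferInstance, inferInstance, fun ω x => ∀ j, F (ω j) x, fun ω => ?_,
    fun x hx => ?_, fun x hx => ?_⟩
  · have := CC.all (G := G) (fun j : Fin k => F (ω j)) (fun j => h1 (ω j))
    simpa using this
  · rw [pr_all (fun ω => F ω x) k]
    exact pow_le_pow_left₀ (pr_nonneg _) (h2 x hx) k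
  · rw [pr_all (fun ω => F ω x) k]
    exact pow_le_pow_left₀ hq (h3 x hx) k

theorem RC.or (h : RC G n S D A B p q) (hp : p ≤ 1) (M : ℕ) :
    RC G n (2 + M * (1 + S)) (D + 3) A B (1 - (1 - p) ^ M) (1 - (1 - q) ^ M) := by
  have h1 := (h.neg.and (by linarith) M).neg
  exact h1.mono (by omega) (by omega) le_rfl le_rfl

theorem RC.mix (h : RC G n S D A B p q) (hS : 1 ≤ S) (hD : 1 ≤ D) :
    RC G n S D A B (p / 2 + 1 / 4) (q / 2 + 1 / 4) := by
  classical
  obtain ⟨Ω, i1, i2, F, h1, h2, h3⟩ := h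
  let F' : Ω × (Bool × Bool) → (Fin n → Bool) → Prop := fun ω x =>
    (ω.2.1 = true ∧ ω.2.2 = true) ∨ (ω.2.1 = false ∧ F ω.1 x)
  have key : ∀ x, pr (fun ω => F' ω x) = pr (fun ω => F ω x) / 2 + 1 / 4 := by
    intro x
    have h0 : (Fintype.card Ω : ℝ) ≠ 0 := by exact_mod_cast Fintype.card_ne_zero
    have e : (Finset.univ.filter (fun ω : Ω × (Bool × Bool) => F' ω x)).card =
        2 * (Finset.univ.filter (fun ω => F ω x)).card + Fintype.card Ω := by
      rw [Finset.card_filter, Finset.card_filter, Fintype.sum_prod_type]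
      show (∑ ω : Ω, ∑ b : Bool × Bool, if F' (ω, b) x then 1 else 0) = _
      have : ∀ ω : Ω, (∑ b : Bool × Bool, if F' (ω, b) x then 1 else 0) =
          2 * (if F ω x then 1 else 0) + 1 := by
        intro ω
        rw [Fintype.sum_prod_type]
        rw [Fintype.sum_bool, Fintype.sum_bool, Fintype.sum_bool]
        by_cases hF : F ω x <;> simp [F', hF]
      rw [Finset.sum_congr rfl (fun ω _ => this ω), Finset.sum_add_distrib, ← Finset.mul_sum]
      simp
    rw [pr_eq, pr_eq, e, Fintype.card_prod]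
    simp only [Fintype.card_prod, Fintype.card_bool]
    push_cast
    field_simp
    ring
  refine ⟨Ω × (Bool × Bool), inferInstance, inferInstance, F', ?_, ?_, ?_⟩
  · rintro ⟨ω, b, b'⟩
    cases b
    · exact (h1 ω).congr fun x => by simp [F']
    · exact ((CC.const (b' = true)).mono hS hD).congr fun x => by simp [F']
  · intro x hx
    rw [key x]
    have := h2 x hx
    linarith
  · intro x hx
    rw [key x]
    have := h3 x hx
    linarith

/-- The union bound: a random circuit with small error on every input contains a circuit without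
errors. -/
theorem RC.exact (h : RC G n S D A B p q) (hp : 0 ≤ p) (hq : q ≤ 1)
    (hlt : (2 : ℝ) ^ n * (p + (1 - q)) < 1) :
    ∃ g, CC G n S D g ∧ (∀ x, A x → ¬ g x) ∧ ∀ x, B x → g x := by
  classical
  obtain ⟨Ω, i1, i2, F, h1, h2, h3⟩ := h
  by_contra hno
  have hbad : ∀ ω, ∃ x, (A x ∧ F ω x) ∨ (B x ∧ ¬ F ω x) := by
    intro ω
    by_contra hc
    push Not at hc
    exact hno ⟨F ω, h1 ω, fun x hx => (hc x).1 hx, fun x hx => (hc x).2 hx⟩
  have h0 : (0 : ℝ) < Fintype.card Ω := by exact_mod_cast Fintype.card_pos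
  have hcard : ∀ x, ((Finset.univ.filter (fun ω => (A x ∧ F ω x) ∨ (B x ∧ ¬ F ω x))).card : ℝ) ≤
      (p + (1 - q)) * Fintype.card Ω := by
    intro x
    have e1 : ((Finset.univ.filter (fun ω => A x ∧ F ω x)).card : ℝ) ≤ p * Fintype.card Ω := by
      by_cases hA : A x
      · have := h2 x hA
        rw [pr_eq, div_le_iff₀ h0] at this
        simpa [hA] using this
      · simp [hA]; positivity
    have e2 : ((Finset.univ.filter (fun ω => B x ∧ ¬ F ω x)).card : ℝ) ≤
        (1 - q) * Fintype.card Ω := by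
      by_cases hB : B x
      · have h4 := h3 x hB
        have h5 := pr_not (fun ω => F ω x)
        have h6 : pr (fun ω => ¬ F ω x) ≤ 1 - q := by linarith
        rw [pr_eq, div_le_iff₀ h0] at h6
        simpa [hB] using h6
      · simp [hB]
        exact mul_nonneg (by linarith) h0.le
    have e3 : (Finset.univ.filter (fun ω => (A x ∧ F ω x) ∨ (B x ∧ ¬ F ω x))).card ≤
        (Finset.univ.filter (fun ω => A x ∧ F ω x)).card +
          (Finset.univ.filter (fun ω => B x ∧ ¬ F ω x)).card := by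
      rw [Finset.filter_or]
      exact Finset.card_union_le _ _
    have e4 : ((Finset.univ.filter (fun ω => (A x ∧ F ω x) ∨ (B x ∧ ¬ F ω x))).card : ℝ) ≤
        (Finset.univ.filter (fun ω => A x ∧ F ω x)).card +
          (Finset.univ.filter (fun ω => B x ∧ ¬ F ω x)).card := by exact_mod_cast e3
    linarith
  have htot : (Fintype.card Ω : ℝ) ≤ ∑ x : Fin n → Bool,
      ((Finset.univ.filter (fun ω => (A x ∧ F ω x) ∨ (B x ∧ ¬ F ω x))).card : ℝ) := by
    have : (Finset.univ : Finset Ω) ⊆ (Finset.univ : Finset (Fin n → Bool)).biUnion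
        (fun x => Finset.univ.filter (fun ω => (A x ∧ F ω x) ∨ (B x ∧ ¬ F ω x))) := by
      intro ω _
      obtain ⟨x, hx⟩ := hbad ω
      rw [Finset.mem_biUnion]
      exact ⟨x, Finset.mem_univ _, by simpa using hx⟩
    have h4 := (Finset.card_le_card this).trans Finset.card_biUnion_le
    rw [Finset.card_univ] at h4
    exact_mod_cast h4
  have h5 : ∑ x : Fin n → Bool,
      ((Finset.univ.filter (fun ω => (A x ∧ F ω x) ∨ (B x ∧ ¬ F ω x))).card : ℝ) ≤
      2 ^ n * ((p + (1 - q)) * Fintype.card Ω) := by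
    refine (Finset.sum_le_sum fun x _ => hcard x).trans (le_of_eq ?_)
    rw [Finset.sum_const, Finset.card_univ]
    simp
  have h6 : (2 : ℝ) ^ n * ((p + (1 - q)) * Fintype.card Ω) < Fintype.card Ω := by
    have := mul_lt_mul_of_pos_right hlt h0
    linarith [this, mul_assoc ((2:ℝ) ^ n) (p + (1 - q)) (Fintype.card Ω : ℝ)]
  linarith

end Pool.Agent.TH931.LA
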